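import Mathlib

/-! Definition: two pairs of vectors with the same Gram data (project QC, `MP_480816_co`). -/

set_option autoImplicit false

namespace Pool.Agent.QC

/-- the pairs `(x, s)` and `(y, t)` have the same inner products -/
def Same {V : Type} [NormedAddCommGroup V] [InnerProductSpace ℂ V] (x s y t : V) : Prop :=
  inner ℂ x x = inner ℂ y y ∧ inner ℂ s s = inner ℂ t t ∧ inner ℂ x s = inner ℂ y t

end Pool.Agent.QC
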