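import Mathlib

/-!
Definitions of project QC (`MP_480816_co`): the points are the pairs `(x, s)` of vectors in
`Z[i]^D` with coordinates `x = a + b i`, `s = c + d i`, `0 ≤ a, b, c, d < q`.
-/

set_option autoImplicit false

namespace Pool.Agent.QC

/-- the coordinate is `((a, b), (c, d))`, for `x = a + b i`, `s = c + d i` -/
abbrev Pt (D q : ℕ) : Type := Fin D → (Fin q × Fin q) × (Fin q × Fin q)

variable {D q : ℕ}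

/-- `|x|^2` -/
def n1 (p : Pt D q) : ℤ := ∑ k, ((((p k).1.1 : ℕ) : ℤ) ^ 2 + (((p k).1.2 : ℕ) : ℤ) ^ 2)

/-- `|s|^2` -/
def n2 (p : Pt D q) : ℤ := ∑ k, ((((p k).2.1 : ℕ) : ℤ) ^ 2 + (((p k).2.2 : ℕ) : ℤ) ^ 2)

/-- real part of `⟨x, s⟩` -/
def n3 (p : Pt D q) : ℤ :=
  ∑ k, ((((p k).1.1 : ℕ) : ℤ) * (((p k).2.1 : ℕ) : ℤ) + (((p k).1.2 : ℕ) : ℤ) * (((p k).2.2 : ℕ) : ℤ))

/-- imaginary part of `⟨x, s⟩` -/
def n4 (p : Pt D q) : ℤ :=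
  ∑ k, ((((p k).1.1 : ℕ) : ℤ) * (((p k).2.2 : ℕ) : ℤ) - (((p k).1.2 : ℕ) : ℤ) * (((p k).2.1 : ℕ) : ℤ))

/-- the vector `x` -/
noncomputable def xv (p : Pt D q) : EuclideanSpace ℂ (Fin D) :=
  WithLp.toLp 2 (fun k => (((p k).1.1 : ℕ) : ℂ) + (((p k).1.2 : ℕ) : ℂ) * Complex.I)

/-- the vector `s` -/
noncomputable def sv (p : Pt D q) : EuclideanSpace ℂ (Fin D) :=
  WithLp.toLp 2 (fun k => (((p k).2.1 : ℕ) : ℂ) + (((p k).2.2 : ℕ) : ℂ) * Complex.I)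

/-- coordinates of `x + τ_j s` (shifted by `q` for `j = 0`) -/
def lnN (j : ℕ) (p : Pt D q) (k : Fin D) : ℕ × ℕ :=
  if j = 0 then (((p k).1.1 : ℕ) + q - ((p k).2.2 : ℕ), ((p k).1.2 : ℕ) + ((p k).2.1 : ℕ))
  else (((p k).1.1 : ℕ) + (j - 1) * ((p k).2.1 : ℕ), ((p k).1.2 : ℕ) + (j - 1) * ((p k).2.2 : ℕ))

end Pool.Agent.QC
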