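import Mathlib

/-! Definition of the slopes (project QC, `MP_480816_co`). -/

set_option autoImplicit false

namespace Pool.Agent.QC

/-- the slopes `i, 0, 1, 2, ...` -/
noncomputable def tau {m : ℕ} (j : Fin m) : ℂ := if (j : ℕ) = 0 then Complex.I else ((j : ℕ) : ℂ) - 1

end Pool.Agent.QC
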