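import Mathlib
import Pool.Agent.QC.Pt
import Pool.Agent.QC.GeoDef
import Pool.Agent.QC.Tau

/-!
Module QC-Brd (project QC, `MP_480816_co`).  Needs only definitions (`Pt`, `GeoDef`, `Tau`).

PLAN.  `lnN_lt`: `a + q - d < 2 q`, `b + c < 2 q`, `a + (j-1) c < j q ≤ m q` (`nlinarith`; `a, b, c, d < q`,
`j < m`, `2 ≤ m`).
`lnN_iff`: both sides say that for every coordinate `k` the complex numbers `x_k + τ_j s_k` agree;
compare real and imaginary parts: for `j = 0`, `(a + b i) + i (c + d i) = (a - d) + (b + c) i`, and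
`a + q - d = a' + q - d'` in `ℕ` (with `d, d' < q`) iff `a - d = a' - d'` in `ℤ`; for `j ≥ 1`,
`τ_j = j - 1` is a natural number.  `EuclideanSpace` vectors: `PiLp.ext`/`WithLp.ofLp` coordinates,
`Complex.ext_iff`, `Nat.cast_inj`.
`same_of`: `⟪x,x⟫ = ∑ (a^2+b^2)`, `⟪s,s⟫ = ∑ (c^2+d^2)`, `⟪x,s⟫ = ∑ conj (a + b i) (c + d i) =
∑ (a c + b d) + (∑ (a d - b c)) i` (`PiLp.inner_apply`, `Complex.ext_iff`): all are determined by
`n1, n2, n3, n4`.
`xs_inj`: `xv p = xv p'` and `sv p = sv p'` give equality of all coordinates, `p = p'`.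
-/

set_option autoImplicit false

namespace Pool.Agent.QC

variable {D q : ℕ}

theorem lnN_lt {m : ℕ} (hm : 2 ≤ m) (j : ℕ) (hj : j < m) (p : Pt D q) (k : Fin D) :
    (lnN j p k).1 < m * q ∧ (lnN j p k).2 < m * q := by
  have ha := ((p k).1.1).2
  have hb := ((p k).1.2).2
  have hc := ((p k).2.1).2
  have hd := ((p k).2.2).2
  have h2 : 2 * q ≤ m * q := Nat.mul_le_mul_right _ hm
  unfold lnN
  by_cases h0 : j = 0
  · rw [if_pos h0]
    constructor
    · show ((p k).1.1 : ℕ) + q - ((p k).2.2 : ℕ) < m * q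
      omega
    · show ((p k).1.2 : ℕ) + ((p k).2.1 : ℕ) < m * q
      omega
  · rw [if_neg h0]
    have h3 : j * q ≤ m * q := Nat.mul_le_mul_right _ hj.le
    obtain ⟨i, rfl⟩ : ∃ i, j = i + 1 := ⟨j - 1, by omega⟩
    have h4 : i * ((p k).2.1 : ℕ) ≤ i * q := Nat.mul_le_mul_left _ hc.le
    have h5 : i * ((p k).2.2 : ℕ) ≤ i * q := Nat.mul_le_mul_left _ hd.le
    have h6 : (i + 1) * q = i * q + q := by ring
    constructor
    · show ((p k).1.1 : ℕ) + (i + 1 - 1) * ((p k).2.1 : ℕ) < m * q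
      rw [Nat.add_sub_cancel]
      omega
    · show ((p k).1.2 : ℕ) + (i + 1 - 1) * ((p k).2.2 : ℕ) < m * q
      rw [Nat.add_sub_cancel]
      omega

private theorem aux0 (q a b c d a' b' c' d' : ℕ) (hd : d < q) (hd' : d' < q) :
    ((a + q - d, b + c) : ℕ × ℕ) = (a' + q - d', b' + c') ↔
      ((a : ℂ) + (b : ℂ) * Complex.I + Complex.I * ((c : ℂ) + (d : ℂ) * Complex.I)
        = (a' : ℂ) + (b' : ℂ) * Complex.I + Complex.I * ((c' : ℂ) + (d' : ℂ) * Complex.I)) := by
  rw [Prod.mk.injEq, Complex.ext_iff]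
  simp only [Complex.add_re, Complex.mul_re, Complex.natCast_re, Complex.natCast_im, Complex.I_re,
    Complex.I_im, Complex.add_im, Complex.mul_im, mul_zero, mul_one, zero_mul, sub_zero, add_zero,
    zero_add, one_mul, zero_sub]
  constructor
  · rintro ⟨h1, h2⟩
    have h3 : a + d' = a' + d := by omega
    have h3' : (a : ℝ) + d' = a' + d := by exact_mod_cast h3
    have h2' : (b : ℝ) + c = b' + c' := by exact_mod_cast h2
    constructor <;> linarith
  · rintro ⟨h1, h2⟩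
    have h3 : (a : ℝ) + d' = a' + d := by linarith
    have h4 : (b : ℝ) + c = b' + c' := by linarith
    have h3' : a + d' = a' + d := by exact_mod_cast h3
    have h4' : b + c = b' + c' := by exact_mod_cast h4
    constructor <;> omega

private theorem aux1 (n a b c d a' b' c' d' : ℕ) :
    ((a + n * c, b + n * d) : ℕ × ℕ) = (a' + n * c', b' + n * d') ↔
      ((a : ℂ) + (b : ℂ) * Complex.I + (n : ℂ) * ((c : ℂ) + (d : ℂ) * Complex.I)
        = (a' : ℂ) + (b' : ℂ) * Complex.I + (n : ℂ) * ((c' : ℂ) + (d' : ℂ) * Complex.I)) := by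
  rw [Prod.mk.injEq, Complex.ext_iff]
  simp only [Complex.add_re, Complex.mul_re, Complex.natCast_re, Complex.natCast_im, Complex.I_re,
    Complex.I_im, Complex.add_im, Complex.mul_im, mul_zero, mul_one, zero_mul, sub_zero, add_zero,
    zero_add]
  constructor
  · rintro ⟨h1, h2⟩
    have h3' : (a : ℝ) + n * c = a' + n * c' := by exact_mod_cast h1
    have h2' : (b : ℝ) + n * d = b' + n * d' := by exact_mod_cast h2
    constructor <;> linarith
  · rintro ⟨h1, h2⟩
    have h3 : (a : ℝ) + n * c = a' + n * c' := by linarith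
    have h4 : (b : ℝ) + n * d = b' + n * d' := by linarith
    exact ⟨by exact_mod_cast h3, by exact_mod_cast h4⟩

theorem lnN_iff {m : ℕ} (j : Fin m) (p p' : Pt D q) :
    (∀ k, lnN (j : ℕ) p k = lnN (j : ℕ) p' k) ↔
      xv p + (tau j : ℂ) • sv p = xv p' + (tau j : ℂ) • sv p' := by
  have h1 : (xv p + (tau j : ℂ) • sv p = xv p' + (tau j : ℂ) • sv p') ↔
      ∀ k, (((p k).1.1 : ℕ) : ℂ) + (((p k).1.2 : ℕ) : ℂ) * Complex.I
        + tau j * ((((p k).2.1 : ℕ) : ℂ) + (((p k).2.2 : ℕ) : ℂ) * Complex.I)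
      = (((p' k).1.1 : ℕ) : ℂ) + (((p' k).1.2 : ℕ) : ℂ) * Complex.I
        + tau j * ((((p' k).2.1 : ℕ) : ℂ) + (((p' k).2.2 : ℕ) : ℂ) * Complex.I) := by
    constructor
    · intro h k
      have h2 := congrArg (fun v : EuclideanSpace ℂ (Fin D) => v k) h
      simpa [xv, sv] using h2
    · intro h
      ext k
      simpa [xv, sv] using h k
  rw [h1]
  refine forall_congr' (fun k => ?_)
  have hd := ((p k).2.2).2
  have hd' := ((p' k).2.2).2
  by_cases h0 : (j : ℕ) = 0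
  · unfold lnN tau
    rw [if_pos h0, if_pos h0, if_pos h0]
    exact aux0 q _ _ _ _ _ _ _ _ hd hd'
  · unfold lnN tau
    rw [if_neg h0, if_neg h0, if_neg h0]
    have h2 : ((j : ℕ) : ℂ) - 1 = (((j : ℕ) - 1 : ℕ) : ℂ) := by
      rw [Nat.cast_sub (by omega)]; simp
    rw [h2]
    exact aux1 _ _ _ _ _ _ _ _ _

private theorem inn (a b c d : ℕ) :
    inner ℂ ((a : ℂ) + (b : ℂ) * Complex.I) ((c : ℂ) + (d : ℂ) * Complex.I)
      = ((a : ℂ) * c + b * d) + ((a : ℂ) * d - b * c) * Complex.I := by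
  rw [RCLike.inner_apply]
  simp only [map_add, map_mul, Complex.conj_natCast, Complex.conj_I]
  linear_combination (-(b : ℂ) * d) * Complex.I_sq

theorem same_of (p p' : Pt D q)
    (h : n1 p = n1 p' ∧ n2 p = n2 p' ∧ n3 p = n3 p' ∧ n4 p = n4 p') :
    Same (xv p) (sv p) (xv p') (sv p') := by
  have e1 : ∀ p : Pt D q, inner ℂ (xv p) (xv p) = ((n1 p : ℤ) : ℂ) := by
    intro p
    rw [PiLp.inner_apply, n1]
    push_cast
    refine Finset.sum_congr rfl (fun k _ => ?_)
    simp only [xv]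
    rw [inn]
    ring
  have e2 : ∀ p : Pt D q, inner ℂ (sv p) (sv p) = ((n2 p : ℤ) : ℂ) := by
    intro p
    rw [PiLp.inner_apply, n2]
    push_cast
    refine Finset.sum_congr rfl (fun k _ => ?_)
    simp only [sv]
    rw [inn]
    ring
  have e3 : ∀ p : Pt D q, inner ℂ (xv p) (sv p) = ((n3 p : ℤ) : ℂ) + ((n4 p : ℤ) : ℂ) * Complex.I := by
    intro p
    rw [PiLp.inner_apply, n3, n4]
    push_cast
    rw [Finset.sum_mul, ← Finset.sum_add_distrib]
    refine Finset.sum_congr rfl (fun k _ => ?_)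
    simp only [xv, sv]
    rw [inn]
  obtain ⟨h1, h2, h3, h4⟩ := h
  exact ⟨by rw [e1, e1, h1], by rw [e2, e2, h2], by rw [e3, e3, h3, h4]⟩

private theorem nat_inj (a b a' b' : ℕ)
    (h : (a : ℂ) + (b : ℂ) * Complex.I = (a' : ℂ) + (b' : ℂ) * Complex.I) : a = a' ∧ b = b' := by
  rw [Complex.ext_iff] at h
  simp at h
  exact h

theorem xs_inj (p p' : Pt D q) (h1 : xv p = xv p') (h2 : sv p = sv p') : p = p' := by
  funext k
  have h3 := congrArg (fun v : EuclideanSpace ℂ (Fin D) => v k) h1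
  have h4 := congrArg (fun v : EuclideanSpace ℂ (Fin D) => v k) h2
  simp only [xv, sv] at h3 h4
  obtain ⟨e1, e2⟩ := nat_inj _ _ _ _ h3
  obtain ⟨e3, e4⟩ := nat_inj _ _ _ _ h4
  exact Prod.ext (Prod.ext (Fin.ext e1) (Fin.ext e2)) (Prod.ext (Fin.ext e3) (Fin.ext e4))

end Pool.Agent.QC
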