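import Mathlib

/-!
Definitions of project QC (`MP_480816_co`): counting functions of a geometry with `m` classes of
lines.  `ℓ i x` is the line of class `i` through the point `x`.
-/

set_option autoImplicit false

open scoped Classical

namespace Pool.Agent.QC

variable {m : ℕ} {X E : Type}

/-- the hypotheses on the geometry -/
structure Geom (ℓ : Fin m → X → E) : Prop where
  /-- two different points have at most one line in common -/
  one : ∀ x y i j, i ≠ j → ℓ i x = ℓ i y → ℓ j x = ℓ j y → x = y
  /-- no triangles -/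
  tri : ∀ x y z i j k, i ≠ j → j ≠ k → k ≠ i → ℓ i x = ℓ i y → ℓ j y = ℓ j z → ℓ k z = ℓ k x →
    x = y
  /-- no theta: the lines of two noncollinear points never meet in a perfect matching -/
  theta : ∀ x y, (∀ i, ℓ i x ≠ ℓ i y) → ∀ σ : Equiv.Perm (Fin m),
    ¬ ∀ i, ∃ p, ℓ i p = ℓ i x ∧ ℓ (σ i) p = ℓ (σ i) y

/-- number of common lines -/
noncomputable def cc (ℓ : Fin m → X → E) (x y : X) : ℕ :=
  (Finset.univ.filter (fun i : Fin m => ℓ i x = ℓ i y)).card

/-- number of pairs of lines of different classes, one through `x`, one through `y`, which meet -/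
noncomputable def tt (ℓ : Fin m → X → E) (x y : X) : ℕ :=
  (Finset.univ.filter (fun ij : Fin m × Fin m =>
    ij.1 ≠ ij.2 ∧ ∃ p, ℓ ij.1 p = ℓ ij.1 x ∧ ℓ ij.2 p = ℓ ij.2 y)).card

end Pool.Agent.QC
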