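import Mathlib
import Pool.Agent.QC.GeoDef

/-!
Module QC-GeoA (project QC, `MP_480816_co`).  Needs only `GeoDef.lean`.

PLAN.  `geo_one`: subtract: `(a - b) • (s - t) = 0`.
`geo_tri`: put `P = x1 + a • s1 = x2 + a • s2`, `Q = x2 + b • s2 = x3 + b • s3`,
`R = x3 + c • s3 = x1 + c • s1`, and `l = (b - c) / (b - a)`, `k = (c - a) / (b - a)`, so `l + k = 1`,
`l * a + k * b = c`.  Claim `R = l • P + k • Q`: `‖R - l • P - k • Q‖ ^ 2` expands into
`⟪R,R⟫, ⟪P,P⟫, ⟪Q,Q⟫, ⟪R,P⟫, ⟪P,R⟫, ⟪R,Q⟫, ⟪Q,R⟫, ⟪P,Q⟫, ⟪Q,P⟫`.  Each is computed at a point which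
lies on both lines (`⟪R,P⟫` with `x1, s1`; `⟪P,Q⟫` with `x2, s2`; `⟪Q,R⟫` with `x3, s3`; `⟪P,P⟫` with
`x1, s1`, ...) and by `Same` (and conjugate symmetry, `inner_conj_symm`) has the value which the same
expression has at the point `(x2, s2)`: with `P' = x2 + a • s2`, `Q' = x2 + b • s2`, `R' = x2 + c • s2`,
`⟪R,P⟫ = ⟪R',P'⟫` etc.; and `R' - l • P' - k • Q' = 0`.  So the expansion is
`⟪R' - l•P' - k•Q', R' - l•P' - k•Q'⟫ = 0`.  Hence `R = l • P + k • Q = l • P' + k • Q' = x2 + c • s2`, and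
`x1 + c • s1 = x2 + c • s2`, `x1 + a • s1 = x2 + a • s2`: `geo_one`.
(Useful first lemma: for `Same x s y t`, `⟪x + a•s, x + b•s⟫ = ⟪y + a•t, y + b•t⟫` for all `a b : ℂ`:
`inner_add_left`, `inner_add_right`, `inner_smul_left`, `inner_smul_right`, and
`⟪s,x⟫ = conj ⟪x,s⟫`.)
-/

set_option autoImplicit false

namespace Pool.Agent.QC

variable {V : Type} [NormedAddCommGroup V] [InnerProductSpace ℂ V]

theorem same_inner {x s y t : V} (h : Same x s y t) (a b : ℂ) :
    inner ℂ (x + a • s) (x + b • s) = inner ℂ (y + a • t) (y + b • t) := by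
  obtain ⟨h1, h2, h3⟩ := h
  have h4 : inner ℂ s x = inner ℂ t y := by
    rw [← inner_conj_symm s x, ← inner_conj_symm t y, h3]
  simp only [inner_add_left, inner_add_right, inner_smul_left, inner_smul_right]
  rw [h1, h2, h3, h4]

theorem geo_one (a b : ℂ) (hab : a ≠ b) (x s y t : V) (h1 : x + a • s = y + a • t)
    (h2 : x + b • s = y + b • t) : x = y ∧ s = t := by
  have h3 : (a - b) • (s - t) = 0 := by
    have : (a - b) • (s - t) = (x + a • s - (y + a • t)) - (x + b • s - (y + b • t)) := by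
      module
    rw [this, h1, h2]
    simp
  have h4 : s = t := by
    rcases smul_eq_zero.mp h3 with h | h
    · exact absurd (sub_eq_zero.mp h) hab
    · exact sub_eq_zero.mp h
  subst h4
  exact ⟨add_right_cancel h1, rfl⟩

theorem geo_tri (a b c : ℂ) (hab : a ≠ b) (hbc : b ≠ c) (hca : c ≠ a) (x1 s1 x2 s2 x3 s3 : V)
    (h2 : Same x1 s1 x2 s2) (h3 : Same x1 s1 x3 s3)
    (h12 : x1 + a • s1 = x2 + a • s2) (h23 : x2 + b • s2 = x3 + b • s3)
    (h31 : x3 + c • s3 = x1 + c • s1) : x1 = x2 ∧ s1 = s2 := by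
  have h32 : Same x3 s3 x2 s2 := ⟨h3.1.symm.trans h2.1, h3.2.1.symm.trans h2.2.1,
    h3.2.2.symm.trans h2.2.2⟩
  have hba : b - a ≠ 0 := sub_ne_zero.mpr (fun e => hab e.symm)
  set l : ℂ := (b - c) / (b - a) with hl
  set k : ℂ := (c - a) / (b - a) with hk
  have hlk : l + k = 1 := by rw [hl, hk]; field_simp; ring
  have hlc : l * a + k * b = c := by rw [hl, hk]; field_simp; ring
  -- inner products of the three lines
  set P := x2 + a • s2 with hP
  set Q := x2 + b • s2 with hQ
  set R := x1 + c • s1 with hR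
  set R' := x2 + c • s2 with hR'
  have iRR : inner ℂ R R = inner ℂ R' R' := same_inner h2 c c
  have iRP : inner ℂ R P = inner ℂ R' P := by
    have e := same_inner h2 c a
    rw [h12] at e
    exact e
  have iPR : inner ℂ P R = inner ℂ P R' := by
    have e := same_inner h2 a c
    rw [h12] at e
    exact e
  have iRQ : inner ℂ R Q = inner ℂ R' Q := by
    have e := same_inner h32 c b
    rw [← h23, h31] at e
    exact e
  have iQR : inner ℂ Q R = inner ℂ Q R' := by
    have e := same_inner h32 b c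
    rw [← h23, h31] at e
    exact e
  have hR0 : R' - l • P - k • Q = 0 := by
    have : R' - l • P - k • Q = (1 - (l + k)) • x2 + (c - (l * a + k * b)) • s2 := by
      rw [hR', hP, hQ]
      module
    rw [this, hlk, hlc]
    simp
  have hexp : inner ℂ (R - l • P - k • Q) (R - l • P - k • Q)
      = inner ℂ (R' - l • P - k • Q) (R' - l • P - k • Q) := by
    simp only [inner_sub_left, inner_sub_right, inner_smul_left, inner_smul_right]
    rw [iRR, iRP, iPR, iRQ, iQR]
  rw [hR0, inner_zero_left, inner_self_eq_zero] at hexp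
  have hRR : R = R' := by
    have e1 : R = (R - l • P - k • Q) + l • P + k • Q := by abel
    have e2 : R' = (R' - l • P - k • Q) + l • P + k • Q := by abel
    rw [e1, e2, hexp, hR0]
  exact geo_one a c (fun e => hca e.symm) x1 s1 x2 s2 h12 hRR

end Pool.Agent.QC
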