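import Mathlib
import Pool.Agent.QC.GeoDef

/-!
Module QC-GeoB (project QC, `MP_480816_co`).  The two lemmas excluding perfect matchings of the lines
through two points: `geo_eq` compares `⟪x + a•s, y + b•t⟫` with `⟪x + a•s, x + b•s⟫`, and `geo_end`
is the expansion of `⟪y,y⟫` with `y = x + h`.
-/

set_option autoImplicit false

open ComplexConjugate

namespace Pool.Agent.QC

variable {V : Type} [NormedAddCommGroup V] [InnerProductSpace ℂ V]

private theorem same_inner' {x s y t : V} (h : Same x s y t) (a b : ℂ) :
    inner ℂ (x + a • s) (x + b • s) = inner ℂ (y + a • t) (y + b • t) := by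
  obtain ⟨h1, h2, h3⟩ := h
  have h4 : inner ℂ s x = inner ℂ t y := by
    rw [← inner_conj_symm s x, ← inner_conj_symm t y, h3]
  simp only [inner_add_left, inner_add_right, inner_smul_left, inner_smul_right]
  rw [h1, h2, h3, h4]

theorem geo_eq (a b : ℂ) (x s y t u v : V) (h : Same x s u v) (h1 : u + a • v = x + a • s)
    (h2 : u + b • v = y + b • t) :
    inner ℂ x (y - x) + inner ℂ x (t - s) * b + inner ℂ s (y - x) * conj a
      + inner ℂ s (t - s) * (conj a * b) = 0 := by
  have e : inner ℂ (x + a • s) (x + b • s) = inner ℂ (x + a • s) (y + b • t) := by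
    rw [same_inner' h a b, h1, h2]
  simp only [inner_add_left, inner_add_right, inner_smul_left, inner_smul_right] at e
  simp only [inner_sub_right]
  linear_combination -e

theorem geo_end (x s y t : V) (h : Same x s y t) (h1 : inner ℂ x (y - x) = 0)
    (h2 : inner ℂ s (t - s) = 0) : x = y ∧ s = t := by
  obtain ⟨g1, g2, _⟩ := h
  have key : ∀ p q : V, inner ℂ p p = inner ℂ q q → inner ℂ p (q - p) = 0 → p = q := by
    intro p q e1 e2
    have e3 : inner ℂ (q - p) p = 0 := by
      rw [← inner_conj_symm, e2, map_zero]
    have e4 : inner ℂ (q - p) (q - p) = 0 := by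
      rw [inner_sub_right] at e2
      rw [inner_sub_left] at e3
      simp only [inner_sub_right, inner_sub_left]
      linear_combination -e1 - e2 - e3
    exact (sub_eq_zero.1 (inner_self_eq_zero.1 e4)).symm
  exact ⟨key x y g1 h1, key s t g2 h2⟩

end Pool.Agent.QC
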