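import Mathlib
import Pool.Agent.QC.Cnt

/-!
Module QC-CntA (project QC, `MP_480816_co`).  Needs only `Cnt.lean` (definitions).

PLAN.  `self`: for `x = y` every `i` is counted in `cc`, and in `tt` exactly the pairs with
`i ≠ j` are counted (take `p = x`): `m * m - m` pairs (`Finset.offDiag_card`, `Finset.univ`).
`col`: let `g` be the class with `ℓ g x = ℓ g y`; by `Geom.one` it is the only one (`cc = 1`).
The pairs counted in `tt` are exactly the `(g, j)` with `j ≠ g` (take `p = y`) and the `(i, g)`
with `i ≠ g` (take `p = x`): if `i ≠ g`, `j ≠ g`, `i ≠ j` and `ℓ i p = ℓ i x`, `ℓ j p = ℓ j y`, then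
`x, p, y` is a triangle with the classes `i, j, g`: `Geom.tri x p y i j g` gives `x = p`, hence
`ℓ j x = ℓ j y` and `x = y` by `Geom.one`, a contradiction.  So the filter is the disjoint union
of two images of `Finset.univ.erase g`, and the number is `2 * (m - 1)`.
-/

set_option autoImplicit false

open scoped Classical

namespace Pool.Agent.QC

variable {m : ℕ} {X E : Type}

theorem cc_self (ℓ : Fin m → X → E) (x : X) : cc ℓ x x = m := by
  unfold cc
  simp

theorem tt_self (ℓ : Fin m → X → E) (x : X) : tt ℓ x x = m * (m - 1) := by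
  unfold tt
  have h1 : (Finset.univ.filter (fun ij : Fin m × Fin m =>
      ij.1 ≠ ij.2 ∧ ∃ p, ℓ ij.1 p = ℓ ij.1 x ∧ ℓ ij.2 p = ℓ ij.2 x))
      = (Finset.univ : Finset (Fin m)).offDiag := by
    ext ij
    simp only [Finset.mem_filter, Finset.mem_univ, true_and, Finset.mem_offDiag]
    constructor
    · exact fun h => h.1
    · exact fun h => ⟨h, x, rfl, rfl⟩
  rw [h1, Finset.offDiag_card, Finset.card_univ, Fintype.card_fin]
  rw [Nat.mul_sub_one]

theorem cc_col (ℓ : Fin m → X → E) (h : Geom ℓ) (x y : X) (hxy : x ≠ y) (g : Fin m)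
    (hg : ℓ g x = ℓ g y) : cc ℓ x y = 1 := by
  unfold cc
  rw [Finset.card_eq_one]
  refine ⟨g, ?_⟩
  ext i
  simp only [Finset.mem_filter, Finset.mem_univ, true_and, Finset.mem_singleton]
  constructor
  · intro hi
    by_contra hne
    exact hxy (h.one x y i g hne hi hg)
  · rintro rfl
    exact hg

theorem tt_col (ℓ : Fin m → X → E) (h : Geom ℓ) (x y : X) (hxy : x ≠ y) (g : Fin m)
    (hg : ℓ g x = ℓ g y) : tt ℓ x y = 2 * (m - 1) := by
  unfold tt
  have h1 : (Finset.univ.filter (fun ij : Fin m × Fin m =>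
      ij.1 ≠ ij.2 ∧ ∃ p, ℓ ij.1 p = ℓ ij.1 x ∧ ℓ ij.2 p = ℓ ij.2 y))
      = ((Finset.univ.erase g).image (fun j => (g, j))) ∪
        ((Finset.univ.erase g).image (fun i => (i, g))) := by
    ext ij
    obtain ⟨i, j⟩ := ij
    simp only [Finset.mem_filter, Finset.mem_univ, true_and, Finset.mem_union, Finset.mem_image,
      Finset.mem_erase, Prod.mk.injEq, and_true]
    constructor
    · rintro ⟨hij, p, hp1, hp2⟩
      by_cases hi : i = g
      · left
        exact ⟨j, fun e => hij (hi.trans e.symm), hi.symm, rfl⟩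
      · by_cases hj : j = g
        · right
          exact ⟨i, hi, rfl, hj.symm⟩
        · exfalso
          have e := h.tri x p y i j g hij hj (fun e => hi e.symm) hp1.symm hp2 hg.symm
          rw [← e] at hp2
          exact hxy (h.one x y j g hj hp2 hg)
    · rintro (⟨j', hj', hg1, hg2⟩ | ⟨i', hi', hg1, hg2⟩)
      · subst hg1; subst hg2
        exact ⟨fun e => hj' e.symm, y, hg.symm, rfl⟩
      · subst hg1; subst hg2
        exact ⟨hi', x, rfl, hg⟩
  rw [h1, Finset.card_union_of_disjoint, Finset.card_image_of_injective,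
    Finset.card_image_of_injective, Finset.card_erase_of_mem (Finset.mem_univ _),
    Finset.card_univ, Fintype.card_fin]
  · ring
  · intro a b hab
    exact congrArg Prod.fst hab
  · intro a b hab
    exact congrArg Prod.snd hab
  · rw [Finset.disjoint_left]
    intro ij h2 h3
    obtain ⟨j, hj, rfl⟩ := Finset.mem_image.mp h2
    obtain ⟨i, hi, hij⟩ := Finset.mem_image.mp h3
    have e1 : i = g := congrArg Prod.fst hij
    exact (Finset.mem_erase.mp hi).1 e1

end Pool.Agent.QC
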