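import Mathlib
import Pool.Agent.QC.Cnt

/-!
Module QC-CntB (project QC, `MP_480816_co`).  Needs only `Cnt.lean` (definitions).

PLAN.  `x`, `y` are noncollinear: `ℓ i x ≠ ℓ i y` for all `i` (in particular `x ≠ y`).
`R i j :⇔ i ≠ j ∧ ∃ p, ℓ i p = ℓ i x ∧ ℓ j p = ℓ j y`.
(1) For each `i` there is at most one `j` with `R i j`: let `p` work for `(i, j)` and `p'` for
`(i, j')`, `j ≠ j'`.  Then `ℓ i p = ℓ i p'`, `ℓ j' p' = ℓ j' y`, `ℓ j y = ℓ j p`, and `i ≠ j'`,
`j' ≠ j`, `j ≠ i`: `Geom.tri p p' y i j' j` gives `p = p'`; so `ℓ j p = ℓ j y`, `ℓ j' p = ℓ j' y`,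
`p = y` by `Geom.one`, and `ℓ i y = ℓ i x`, a contradiction.
(2) Symmetrically for each `j` there is at most one `i` with `R i j`.
(3) So `Prod.fst` is injective on the filter set, `tt ≤ m`.  If `tt = m` (i.e. `¬ tt + 1 ≤ m`), for
every `i` there is a `j = f i` with `R i j`, `f` is injective by (2), hence a permutation `σ` of
`Fin m` (`Equiv.ofBijective`, `Finite.injective_iff_bijective`), and `Geom.theta x y _ σ` is
contradicted.
-/

set_option autoImplicit false

open scoped Classical

namespace Pool.Agent.QC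

variable {m : ℕ} {X E : Type}

theorem cc_non (ℓ : Fin m → X → E) (x y : X) (hxy : ∀ i, ℓ i x ≠ ℓ i y) : cc ℓ x y = 0 := by
  unfold cc
  rw [Finset.card_eq_zero, Finset.filter_eq_empty_iff]
  intro i _
  exact hxy i

theorem tt_non (ℓ : Fin m → X → E) (h : Geom ℓ) (x y : X) (hxy : ∀ i, ℓ i x ≠ ℓ i y) :
    tt ℓ x y + 1 ≤ m := by
  set R : Fin m → Fin m → Prop := fun i j => i ≠ j ∧ ∃ p, ℓ i p = ℓ i x ∧ ℓ j p = ℓ j y with hR
  have h1 : ∀ i j j', R i j → R i j' → j = j' := by
    rintro i j j' ⟨hij, p, hp1, hp2⟩ ⟨hij', p', hp1', hp2'⟩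
    by_contra hne
    have e := h.tri p p' y i j' j hij' (fun e => hne e.symm) (fun e => hij e.symm)
      (hp1.trans hp1'.symm) hp2' hp2.symm
    rw [← e] at hp2'
    have e2 := h.one p y j j' hne hp2 hp2'
    rw [e2] at hp1
    exact hxy i hp1.symm
  have h2 : ∀ i i' j, R i j → R i' j → i = i' := by
    rintro i i' j ⟨hij, p, hp1, hp2⟩ ⟨hij', p', hp1', hp2'⟩
    by_contra hne
    have e := h.tri p p' x j i' i (fun e => hij' e.symm) (fun e => hne e.symm) hij
      (hp2.trans hp2'.symm) hp1' hp1.symm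
    rw [← e] at hp1'
    have e2 := h.one p x i i' hne hp1 hp1'
    rw [e2] at hp2
    exact hxy j hp2
  by_contra hcon
  have hle : m ≤ tt ℓ x y := by omega
  set F : Finset (Fin m × Fin m) := Finset.univ.filter (fun ij : Fin m × Fin m =>
    ij.1 ≠ ij.2 ∧ ∃ p, ℓ ij.1 p = ℓ ij.1 x ∧ ℓ ij.2 p = ℓ ij.2 y) with hF
  have hFR : ∀ ij, ij ∈ F → R ij.1 ij.2 := by
    intro ij hij
    exact (Finset.mem_filter.mp hij).2
  have himg : F.image Prod.fst = Finset.univ := by
    apply Finset.eq_univ_of_card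
    rw [Finset.card_image_of_injOn]
    · rw [Fintype.card_fin]
      apply le_antisymm _ hle
      calc F.card = (F.image Prod.fst).card := by
            rw [Finset.card_image_of_injOn]
            intro a ha b hb hab
            have ha' := hFR a ha
            have hb' := hFR b hb
            have hab' : a.1 = b.1 := hab
            rw [hab'] at ha'
            exact Prod.ext hab' (h1 _ _ _ ha' hb')
        _ ≤ Fintype.card (Fin m) := Finset.card_le_univ _
        _ = m := Fintype.card_fin m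
    · intro a ha b hb hab
      have ha' := hFR a ha
      have hb' := hFR b hb
      have hab' : a.1 = b.1 := hab
      rw [hab'] at ha'
      exact Prod.ext hab' (h1 _ _ _ ha' hb')
  have hex : ∀ i, ∃ j, R i j := by
    intro i
    have hi : i ∈ F.image Prod.fst := by rw [himg]; exact Finset.mem_univ i
    obtain ⟨ij, hij, rfl⟩ := Finset.mem_image.mp hi
    exact ⟨ij.2, hFR ij hij⟩
  choose f hf using hex
  have hfinj : Function.Injective f := by
    intro i i' hii
    have hi' := hf i'
    rw [← hii] at hi'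
    exact h2 _ _ _ (hf i) hi'
  refine h.theta x y hxy (Equiv.ofBijective f (Finite.injective_iff_bijective.mp hfinj)) ?_
  intro i
  exact (hf i).2

end Pool.Agent.QC
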