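import Mathlib

/-!
Module QC-Vec (project QC, `MP_480816_co`).  Mathlib only.

PLAN.  Let `K = ∑ e, ∑ f, |β e f|` and `ε = c / (K + 1)`.  The matrix
`A e f = (if e = f then c else 0) - ε * β e f` is symmetric and positive semidefinite:
`∑ e, ∑ f, A e f * x e * x f = c * ∑ e, x e ^ 2 - ε * ∑ e, ∑ f, β e f * x e * x f` and
`|x e * x f| ≤ ∑ g, x g ^ 2` (both squares are `≤` the sum), so the second term is at most
`ε * K * ∑ g, x g ^ 2 ≤ c * ∑ g, x g ^ 2`.  By `Matrix.posSemidef_iff_eq_conjTranspose_mul_self`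
(or the positive square root of a positive semidefinite matrix) there is `B` with `A = Bᴴ * B`.
Put `w e = WithLp.toLp 2 (fun i => B (equiv i) e)` with `equiv : Fin (card E) ≃ E`; then
`inner ℝ (w e) (w f) = ∑ i, B i e * B i f = A e f`.
(See `Pool/Agent/Helper17/Sph/Gram.lean`, theorem `exists_vectors`, for the same argument.)
-/

set_option autoImplicit false

namespace Pool.Agent.QC

open Matrix
open scoped MatrixOrder

private theorem psd {E : Type} [Fintype E] [DecidableEq E] (c : ℝ) (hc : 0 < c)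
    (β : E → E → ℝ) (hβ : ∀ e f, β e f = β f e) :
    (Matrix.of fun e f : E => (if e = f then c else 0) -
      c / ((∑ a, ∑ b, |β a b|) + 1) * β e f : Matrix E E ℝ).PosSemidef := by
  set K : ℝ := ∑ a, ∑ b, |β a b| with hK
  have hK0 : 0 ≤ K := Finset.sum_nonneg fun _ _ => Finset.sum_nonneg fun _ _ => abs_nonneg _
  set ε : ℝ := c / (K + 1) with hε
  have hε0 : 0 < ε := by positivity
  have hεK : ε * K ≤ c := by
    rw [hε, div_mul_eq_mul_div, div_le_iff₀ (by linarith)]
    nlinarith
  refine PosSemidef.of_dotProduct_mulVec_nonneg ?_ fun x => ?_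
  · ext e f
    simp only [conjTranspose_apply, star_trivial, Matrix.of_apply]
    rw [hβ f e]
    by_cases h : e = f
    · subst h; simp
    · rw [if_neg h, if_neg (fun h' => h h'.symm)]
  · set S : ℝ := ∑ g, x g ^ 2 with hS
    have e1 : star x ⬝ᵥ ((Matrix.of fun e f : E => (if e = f then c else 0) - ε * β e f) *ᵥ x) =
        c * S - ε * ∑ e, ∑ f, β e f * (x e * x f) := by
      simp only [dotProduct, mulVec, star_trivial, Matrix.of_apply, Finset.mul_sum, hS]
      rw [← Finset.sum_sub_distrib]
      refine Finset.sum_congr rfl fun e _ => ?_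
      have h1 : ∀ f, x e * (((if e = f then c else 0) - ε * β e f) * x f) =
          (if e = f then c * (x e * x f) else 0) - ε * (β e f * (x e * x f)) := by
        intro f
        by_cases h : e = f
        · simp only [h, if_true]; ring
        · simp only [h, if_false]; ring
      rw [Finset.sum_congr rfl fun f _ => h1 f, Finset.sum_sub_distrib]
      simp only [Finset.sum_ite_eq, Finset.mem_univ, if_true]
      ring
    rw [e1]
    have hx : ∀ e f, |x e * x f| ≤ S := by
      intro e f
      have h1 : x e ^ 2 ≤ S := Finset.single_le_sum (f := fun g => x g ^ 2) (fun g _ => sq_nonneg _) (Finset.mem_univ e)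
      have h2 : x f ^ 2 ≤ S := Finset.single_le_sum (f := fun g => x g ^ 2) (fun g _ => sq_nonneg _) (Finset.mem_univ f)
      rw [abs_mul]
      nlinarith [sq_nonneg (|x e| - |x f|), sq_abs (x e), sq_abs (x f)]
    have hsum : ∑ e, ∑ f, β e f * (x e * x f) ≤ K * S := by
      rw [hK, Finset.sum_mul]
      refine Finset.sum_le_sum fun e _ => ?_
      rw [Finset.sum_mul]
      refine Finset.sum_le_sum fun f _ => ?_
      refine (le_abs_self _).trans ?_
      rw [abs_mul]
      exact mul_le_mul_of_nonneg_left (hx e f) (abs_nonneg _)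
    have hS0 : 0 ≤ S := Finset.sum_nonneg fun _ _ => sq_nonneg _
    have h3 : ε * ∑ e, ∑ f, β e f * (x e * x f) ≤ ε * (K * S) :=
      mul_le_mul_of_nonneg_left hsum hε0.le
    have h4 : ε * (K * S) ≤ c * S := by
      rw [← mul_assoc]
      exact mul_le_mul_of_nonneg_right hεK hS0
    linarith

/-- a small perturbation of `c` times the identity is a Gram matrix -/
theorem exists_vec {E : Type} [Fintype E] [DecidableEq E] (c : ℝ) (hc : 0 < c)
    (β : E → E → ℝ) (hβ : ∀ e f, β e f = β f e) :
    ∃ ε : ℝ, 0 < ε ∧ ∃ w : E → EuclideanSpace ℝ (Fin (Fintype.card E)),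
      ∀ e f, inner ℝ (w e) (w f) = (if e = f then c else 0) - ε * β e f := by
  have hK0 : 0 ≤ ∑ a, ∑ b, |β a b| :=
    Finset.sum_nonneg fun _ _ => Finset.sum_nonneg fun _ _ => abs_nonneg _
  refine ⟨c / ((∑ a, ∑ b, |β a b|) + 1), by positivity, ?_⟩
  have h : (0 : Matrix E E ℝ) ≤ Matrix.of fun e f : E => (if e = f then c else 0) -
      c / ((∑ a, ∑ b, |β a b|) + 1) * β e f :=
    nonneg_iff_posSemidef.mpr (psd c hc β hβ)
  obtain ⟨R, hR⟩ := CStarAlgebra.nonneg_iff_eq_star_mul_self.mp h
  refine ⟨fun i => LinearIsometryEquiv.piLpCongrLeft 2 ℝ ℝ (Fintype.equivFin E)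
    (WithLp.toLp 2 (fun k => R k i)), fun i j => ?_⟩
  have hR' := congrFun (congrFun hR i) j
  rw [Matrix.of_apply] at hR'
  rw [LinearIsometryEquiv.inner_map_map, hR']
  simp [PiLp.inner_apply, star_eq_conjTranspose, mul_apply, mul_comm]

end Pool.Agent.QC
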