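import Mathlib
import Pool.Agent.QC.Cnt
import Pool.Agent.QC.CntA
import Pool.Agent.QC.CntB
import Pool.Agent.QC.Vec

/-!
Module QC-Ker (project QC, `MP_480816_co`).  Uses the statements of `Vec`, `CntA`, `CntB`.

PLAN.  On `Fin m × E` put
`β (i,a) (j,b) = 1/m^2 + ((m-2)/m) * [(i,a) = (j,b)] - (1/m) * [i ≠ j ∧ ∃ p, ℓ i p = a ∧ ℓ j p = b]`
(symmetric: exchange the roles, `p` is the same).  Take `ε`, `w` from `exists_vec (1/m)` and
`v x = ∑ i, w (i, ℓ i x)`.  Then (`sum_inner`, `inner_sum`)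
`inner (v x) (v y) = (1/m) * cc ℓ x y - ε * (1 + ((m-2)/m) * cc ℓ x y - (1/m) * tt ℓ x y)`
(for the first sum only the terms `i = j` contribute, `(i, ℓ i x) = (j, ℓ j y) ↔ i = j ∧ ...`; the sum
of the constants `1/m^2` over the `m * m` pairs is `1`).
`x = y`: `cc = m`, `tt = m (m-1)`: the value is `1`.  `x ≠ y` collinear: `cc = 1`, `tt = 2 (m-1)`:
the value is `1/m`.  Otherwise `cc = 0`, `tt + 1 ≤ m`: the value is `≤ - ε / m < 0`.
As `m ≥ 2`, distinct points have inner product `< 1`, so `v` is injective; `S = univ.image v`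
(or `Finset.map`), and `card (Fin m × E) = m * card E`: transport along this equality of natural
numbers (`Fintype.card_prod`, `Fintype.card_fin`; `rw` or `cases` on `n = m * card E` after
generalizing).
-/

set_option autoImplicit false

open scoped Classical

namespace Pool.Agent.QC

variable {m : ℕ} {X E : Type}

/-- the matrix `β` -/
private noncomputable def bt (ℓ : Fin m → X → E) (e f : Fin m × E) : ℝ :=
  1 / (m : ℝ) ^ 2 + (((m : ℝ) - 2) / m) * (if e = f then 1 else 0)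
    - (1 / (m : ℝ)) * (if e.1 ≠ f.1 ∧ ∃ p, ℓ e.1 p = e.2 ∧ ℓ f.1 p = f.2 then 1 else 0)

private theorem bt_symm (ℓ : Fin m → X → E) (e f : Fin m × E) : bt ℓ e f = bt ℓ f e := by
  have h1 : (e = f) ↔ (f = e) := eq_comm
  have h2 : (e.1 ≠ f.1 ∧ ∃ p, ℓ e.1 p = e.2 ∧ ℓ f.1 p = f.2) ↔
      (f.1 ≠ e.1 ∧ ∃ p, ℓ f.1 p = f.2 ∧ ℓ e.1 p = e.2) := by
    constructor
    · rintro ⟨h, p, hp, hp'⟩
      exact ⟨h.symm, p, hp', hp⟩
    · rintro ⟨h, p, hp, hp'⟩
      exact ⟨h.symm, p, hp', hp⟩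
  unfold bt
  simp only [h1, h2]

private theorem sum_eq (ℓ : Fin m → X → E) (x y : X) :
    ∑ i : Fin m, ∑ j : Fin m, (if ((i, ℓ i x) : Fin m × E) = (j, ℓ j y) then (1 : ℝ) else 0)
      = cc ℓ x y := by
  have h1 : ∀ i : Fin m, ∑ j : Fin m,
      (if ((i, ℓ i x) : Fin m × E) = (j, ℓ j y) then (1 : ℝ) else 0)
        = if ℓ i x = ℓ i y then 1 else 0 := by
    intro i
    rw [Finset.sum_eq_single i]
    · simp
    · intro j _ hj
      have : ((i, ℓ i x) : Fin m × E) ≠ (j, ℓ j y) := fun e => hj (congrArg Prod.fst e).symm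
      rw [if_neg this]
    · intro h; exact absurd (Finset.mem_univ i) h
  rw [Finset.sum_congr rfl (fun i _ => h1 i)]
  unfold cc
  rw [Finset.sum_boole]

private theorem sum_tt (ℓ : Fin m → X → E) (x y : X) :
    ∑ i : Fin m, ∑ j : Fin m, (if i ≠ j ∧ ∃ p, ℓ i p = ℓ i x ∧ ℓ j p = ℓ j y then (1 : ℝ) else 0)
      = tt ℓ x y := by
  unfold tt
  rw [← Finset.sum_boole, ← Finset.univ_product_univ, Finset.sum_product]

private theorem sum_bt (hm : 2 ≤ m) (ℓ : Fin m → X → E) (x y : X) :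
    ∑ i : Fin m, ∑ j : Fin m, bt ℓ (i, ℓ i x) (j, ℓ j y)
      = 1 + (((m : ℝ) - 2) / m) * cc ℓ x y - (1 / (m : ℝ)) * tt ℓ x y := by
  have hm0 : (m : ℝ) ≠ 0 := by
    have : m ≠ 0 := by omega
    exact_mod_cast this
  rw [← sum_eq ℓ x y, ← sum_tt ℓ x y]
  simp only [Finset.mul_sum]
  have h1 : (1 : ℝ) = ∑ i : Fin m, ∑ j : Fin m, 1 / (m : ℝ) ^ 2 := by
    simp only [Finset.sum_const, Finset.card_univ, Fintype.card_fin, nsmul_eq_mul]
    field_simp
  rw [show (1 : ℝ) + ∑ i : Fin m, ∑ j : Fin m, (((m : ℝ) - 2) / m) *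
      (if ((i, ℓ i x) : Fin m × E) = (j, ℓ j y) then (1 : ℝ) else 0)
      = ∑ i : Fin m, ∑ j : Fin m, (1 / (m : ℝ) ^ 2 + (((m : ℝ) - 2) / m) *
      (if ((i, ℓ i x) : Fin m × E) = (j, ℓ j y) then (1 : ℝ) else 0)) by
    rw [eq_comm]
    simp only [Finset.sum_add_distrib]
    rw [← h1]]
  rw [← Finset.sum_sub_distrib]
  refine Finset.sum_congr rfl (fun i _ => ?_)
  rw [← Finset.sum_sub_distrib]
  refine Finset.sum_congr rfl (fun j _ => ?_)
  rfl

/-- a geometry with `m` classes of lines, without triangles and thetas, gives a code -/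
theorem exists_code [Fintype X] [Fintype E] (hm : 2 ≤ m) (ℓ : Fin m → X → E) (h : Geom ℓ) :
    ∃ S : Finset (EuclideanSpace ℝ (Fin (m * Fintype.card E))), S.card = Fintype.card X ∧
      (∀ x ∈ S, ‖x‖ = 1) ∧
      (∀ x ∈ S, ∀ y ∈ S, x ≠ y → (inner ℝ x y < 0 ∨ inner ℝ x y = 1 / m)) := by
  have hmN : 0 < m := by omega
  have hm0 : (0 : ℝ) < (m : ℝ) := by exact_mod_cast hmN
  have hm2 : (2 : ℝ) ≤ (m : ℝ) := by exact_mod_cast hm
  have hcard : Fintype.card (Fin m × E) = m * Fintype.card E := by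
    rw [Fintype.card_prod, Fintype.card_fin]
  obtain ⟨ε, hε, w, hw⟩ := exists_vec (E := Fin m × E) (1 / (m : ℝ)) (by positivity) (bt ℓ)
    (bt_symm ℓ)
  rw [← hcard]
  set v : X → EuclideanSpace ℝ (Fin (Fintype.card (Fin m × E))) := fun x => ∑ i, w (i, ℓ i x)
    with hv
  have hin : ∀ x y, inner ℝ (v x) (v y) = (1 / (m : ℝ)) * cc ℓ x y
      - ε * (1 + (((m : ℝ) - 2) / m) * cc ℓ x y - (1 / (m : ℝ)) * tt ℓ x y) := by
    intro x y
    rw [← sum_bt hm ℓ x y]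
    nth_rewrite 1 [← sum_eq ℓ x y]
    have h0 : inner ℝ (v x) (v y) = ∑ i, ∑ j, inner ℝ (w (i, ℓ i x)) (w (j, ℓ j y)) := by
      simp only [hv]
      rw [sum_inner]
      refine Finset.sum_congr rfl (fun i _ => ?_)
      rw [inner_sum]
    rw [h0]
    simp only [hw, Finset.mul_sum]
    rw [← Finset.sum_sub_distrib]
    refine Finset.sum_congr rfl (fun i _ => ?_)
    rw [← Finset.sum_sub_distrib]
    refine Finset.sum_congr rfl (fun j _ => ?_)
    congr 1
    split_ifs <;> simp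
  have hself : ∀ x, inner ℝ (v x) (v x) = 1 := by
    intro x
    rw [hin, cc_self, tt_self]
    have : ((m * (m - 1) : ℕ) : ℝ) = (m : ℝ) * ((m : ℝ) - 1) := by
      rw [Nat.cast_mul, Nat.cast_sub (by omega)]; simp
    rw [this]
    field_simp
    ring
  have hcol : ∀ x y, x ≠ y → (∃ g, ℓ g x = ℓ g y) → inner ℝ (v x) (v y) = 1 / m := by
    rintro x y hxy ⟨g, hg⟩
    rw [hin, cc_col ℓ h x y hxy g hg, tt_col ℓ h x y hxy g hg]
    have : ((2 * (m - 1) : ℕ) : ℝ) = 2 * ((m : ℝ) - 1) := by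
      rw [Nat.cast_mul, Nat.cast_sub (by omega)]; simp
    rw [this]
    field_simp
    push_cast
    ring
  have hnon : ∀ x y, (¬ ∃ g, ℓ g x = ℓ g y) → inner ℝ (v x) (v y) < 0 := by
    intro x y hxy
    have hxy' : ∀ i, ℓ i x ≠ ℓ i y := fun i e => hxy ⟨i, e⟩
    rw [hin, cc_non ℓ x y hxy']
    have h1 : ((tt ℓ x y : ℕ) : ℝ) + 1 ≤ m := by exact_mod_cast tt_non ℓ h x y hxy'
    have h2 : (1 / (m : ℝ)) * (tt ℓ x y : ℝ) < 1 := by
      rw [one_div, inv_mul_lt_iff₀ hm0]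
      linarith
    have h3 : 0 < ε * (1 - (1 / (m : ℝ)) * (tt ℓ x y : ℝ)) := mul_pos hε (by linarith)
    simp only [Nat.cast_zero, mul_zero, add_zero, zero_sub]
    linarith
  have hlt : ∀ x y, x ≠ y → inner ℝ (v x) (v y) < 1 := by
    intro x y hxy
    by_cases hg : ∃ g, ℓ g x = ℓ g y
    · rw [hcol x y hxy hg, div_lt_one hm0]
      linarith
    · exact (hnon x y hg).trans one_pos
  have hinj : Function.Injective v := by
    intro x y hxy
    by_contra hne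
    have h1 := hlt x y hne
    rw [← hxy, hself] at h1
    exact lt_irrefl _ h1
  refine ⟨Finset.univ.map ⟨v, hinj⟩, by simp, ?_, ?_⟩
  · intro z hz
    obtain ⟨x, _, rfl⟩ := Finset.mem_map.mp hz
    have h1 := hself x
    rw [real_inner_self_eq_norm_sq] at h1
    exact (pow_eq_one_iff_of_nonneg (norm_nonneg _) two_ne_zero).mp h1
  · intro z hz z' hz' hne
    obtain ⟨x, _, rfl⟩ := Finset.mem_map.mp hz
    obtain ⟨y, _, rfl⟩ := Finset.mem_map.mp hz'
    have hxy : x ≠ y := fun e => hne (by rw [e])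
    simp only [Function.Embedding.coeFn_mk]
    by_cases hg : ∃ g, ℓ g x = ℓ g y
    · exact Or.inr (hcol x y hxy hg)
    · exact Or.inl (hnon x y hg)

end Pool.Agent.QC
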