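import Mathlib
import Pool.Agent.QC.Tau

/-!
Module QC-LAf (project QC, `MP_480816_co`).  Needs only `Tau.lean` (one definition).

`m = 4`, slopes `I, 0, 1, 2`.  For each of the 9 derangements `σ` of `Fin 4` the four equations
`A + B * tau (σ i) + C * conj (tau i) + E * (conj (tau i) * tau (σ i)) = 0` have only the solution
`0` (checked with exact arithmetic: the 4 x 4 determinants are not zero).

PLAN.  The values `s i = σ i` satisfy `s i ≠ i` and are pairwise different: `fin_cases`/`interval_cases`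
on `σ 0, σ 1, σ 2, σ 3` (generalize `σ 0 = a`, ... with the disequalities; `fin_cases a <;> ...`,
impossible cases by `simp_all`/`omega`) leave 9 cases.  In each case `h 0, ..., h 3` become explicit linear
equations with Gaussian coefficients (`tau 0 = I`, `tau 1 = 0`, `tau 2 = 1`, `tau 3 = 2`,
`conj I = -I`).  Solve: e.g. by taking the 4 x 4 matrix and `Matrix.eq_zero_of_mulVec_eq_zero`, or by
passing to real and imaginary parts (`Complex.ext_iff`) and `linarith` (the real system has 8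
equations and 8 unknowns, `linarith` solves each of the 8 goals).
-/

set_option autoImplicit false

open ComplexConjugate

namespace Pool.Agent.QC

private theorem cases9 : ∀ σ : Equiv.Perm (Fin 4), (∀ i, σ i ≠ i) →
    (σ 0 = 1 ∧ σ 1 = 0 ∧ σ 2 = 3 ∧ σ 3 = 2) ∨ (σ 0 = 1 ∧ σ 1 = 2 ∧ σ 2 = 3 ∧ σ 3 = 0) ∨ (σ 0 = 1 ∧ σ 1 = 3 ∧ σ 2 = 0 ∧ σ 3 = 2) ∨ (σ 0 = 2 ∧ σ 1 = 0 ∧ σ 2 = 3 ∧ σ 3 = 1) ∨ (σ 0 = 2 ∧ σ 1 = 3 ∧ σ 2 = 0 ∧ σ 3 = 1) ∨ (σ 0 = 2 ∧ σ 1 = 3 ∧ σ 2 = 1 ∧ σ 3 = 0) ∨ (σ 0 = 3 ∧ σ 1 = 0 ∧ σ 2 = 1 ∧ σ 3 = 2) ∨ (σ 0 = 3 ∧ σ 1 = 2 ∧ σ 2 = 0 ∧ σ 3 = 1) ∨ (σ 0 = 3 ∧ σ 1 = 2 ∧ σ 2 = 1 ∧ σ 3 = 0) := by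
  decide +kernel

private theorem t0 : tau (0 : Fin 4) = Complex.I := by simp [tau]
private theorem t1 : tau (1 : Fin 4) = 0 := by simp [tau]
private theorem t2 : tau (2 : Fin 4) = 1 := by
  simp only [tau]
  norm_num
private theorem t3 : tau (3 : Fin 4) = 2 := by
  simp only [tau]
  norm_num

theorem la_four (σ : Equiv.Perm (Fin 4)) (hσ : ∀ i, σ i ≠ i) (A B C E : ℂ)
    (h : ∀ i, A + B * tau (σ i) + C * conj (tau i) + E * (conj (tau i) * tau (σ i)) = 0) :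
    A = 0 ∧ B = 0 ∧ C = 0 ∧ E = 0 := by
  have h0 := h 0
  have h1 := h 1
  have h2 := h 2
  have h3 := h 3
  rcases cases9 σ hσ with c | c | c | c | c | c | c | c | c
  all_goals
    obtain ⟨c0, c1, c2, c3⟩ := c
    rw [c0] at h0
    rw [c1] at h1
    rw [c2] at h2
    rw [c3] at h3
    simp only [t0, t1, t2, t3, Complex.conj_I, map_zero, map_one, map_ofNat, Complex.ext_iff,
      Complex.add_re, Complex.add_im, Complex.mul_re, Complex.mul_im, Complex.I_re, Complex.I_im,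
      Complex.neg_re, Complex.neg_im, Complex.zero_re, Complex.zero_im, Complex.one_re,
      Complex.one_im, Complex.re_ofNat, Complex.im_ofNat] at h0 h1 h2 h3 ⊢
    refine ⟨⟨?_, ?_⟩, ⟨?_, ?_⟩, ⟨?_, ?_⟩, ⟨?_, ?_⟩⟩ <;> linarith

end Pool.Agent.QC
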