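import Mathlib

/-!
Module QC-LAg (project QC, `MP_480816_co`).  Mathlib only.

`F(u,w) = A + B w + C u + E u w` with complex coefficients vanishes at three points `(u k, w k)`
with real coordinates, `u` injective, `w` injective, and at `(-I, w0)`, `w0` real and different from
the `w k`.  Then `F = 0`.

PLAN.  (1) For each `k`: `A + C u_k = - w_k (B + E u_k)` and (conjugate) `conj A + conj C u_k =
- w_k (conj B + conj E u_k)`; so `(A + C u)(conj B + conj E u) - (conj A + conj C u)(B + E u)`, a
polynomial `c0 + c1 u + c2 u^2`, vanishes at the three different real points `u_k`; hence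
`c0 = c1 = c2 = 0` (`(u1-u2)(u1-u3)(u2-u3) c2 = 0` by `linear_combination`, etc.).
(2) Evaluate this identity at `u = -I` and use `A - C I = - w0 (B - E I)`:
`(B - E I) * ((conj A - conj C I) + w0 (conj B - conj E I)) = 0`.
(3) If `B - E I = 0` then `A - C I = 0`, so `F(u,w) = (u + I)(C + E w)`; at the three points
`u_k + I ≠ 0`, so `C + E w_k = 0` for three different `w_k`: `E = 0`, `C = 0`, `A = B = 0`.
(4) Otherwise the conjugate of the second factor is `0`: `A + C I + w0 (B + E I) = 0`; together with
`A - C I + w0 (B - E I) = 0`: `A + w0 B = 0` and `C + w0 E = 0`, so `F(u,w) = (w - w0)(B + E u)`; at the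
three points `B + E u_k = 0`, so `E = 0`, `B = 0`, `A = C = 0`.
-/

set_option autoImplicit false

open ComplexConjugate

namespace Pool.Agent.QC

theorem la_core (u w : Fin 3 → ℝ) (hu : Function.Injective u) (hw : Function.Injective w) (w0 : ℝ)
    (hw0 : ∀ k, w k ≠ w0) (A B C E : ℂ)
    (h : ∀ k, A + B * (w k : ℂ) + C * (u k : ℂ) + E * ((u k : ℂ) * (w k : ℂ)) = 0)
    (h0 : A + B * (w0 : ℂ) + C * (-Complex.I) + E * ((-Complex.I) * (w0 : ℂ)) = 0) :
    A = 0 ∧ B = 0 ∧ C = 0 ∧ E = 0 := by
  have hI := Complex.I_ne_zero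
  have hu01 : (u 0 : ℂ) - u 1 ≠ 0 := by
    have h1 : u 0 ≠ u 1 := fun h2 => absurd (hu h2) (by decide)
    exact_mod_cast sub_ne_zero.mpr h1
  have hu12 : (u 1 : ℂ) - u 2 ≠ 0 := by
    have h1 : u 1 ≠ u 2 := fun h2 => absurd (hu h2) (by decide)
    exact_mod_cast sub_ne_zero.mpr h1
  have hu02 : (u 0 : ℂ) - u 2 ≠ 0 := by
    have h1 : u 0 ≠ u 2 := fun h2 => absurd (hu h2) (by decide)
    exact_mod_cast sub_ne_zero.mpr h1
  have hw01 : (w 0 : ℂ) - w 1 ≠ 0 := by
    have h1 : w 0 ≠ w 1 := fun h2 => absurd (hw h2) (by decide)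
    exact_mod_cast sub_ne_zero.mpr h1
  have hconj : ∀ k, conj A + conj B * (w k : ℂ) + conj C * (u k : ℂ) +
      conj E * ((u k : ℂ) * (w k : ℂ)) = 0 := by
    intro k
    have h1 := congrArg conj (h k)
    simpa only [map_add, map_mul, Complex.conj_ofReal, map_zero] using h1
  have hP : ∀ k, (A * conj B - conj A * B) + (A * conj E + C * conj B - conj A * E - conj C * B) *
      (u k : ℂ) + (C * conj E - conj C * E) * (u k : ℂ) ^ 2 = 0 := by
    intro k
    linear_combination (conj B + conj E * (u k : ℂ)) * h k - (B + E * (u k : ℂ)) * hconj k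
  set c0 := A * conj B - conj A * B with hc0
  set c1 := A * conj E + C * conj B - conj A * E - conj C * B with hc1
  set c2 := C * conj E - conj C * E with hc2
  have h01 : c1 + c2 * ((u 0 : ℂ) + u 1) = 0 := by
    apply mul_left_cancel₀ hu01
    linear_combination hP 0 - hP 1
  have h12 : c1 + c2 * ((u 1 : ℂ) + u 2) = 0 := by
    apply mul_left_cancel₀ hu12
    linear_combination hP 1 - hP 2
  have e2 : c2 = 0 := by
    apply mul_left_cancel₀ hu02
    linear_combination h01 - h12
  have e1 : c1 = 0 := by
    rw [e2] at h01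
    linear_combination h01
  have e0 : c0 = 0 := by
    have h1 := hP 0
    rw [e1, e2] at h1
    linear_combination h1
  have hprod : (B - E * Complex.I) * ((conj A - conj C * Complex.I) +
      (w0 : ℂ) * (conj B - conj E * Complex.I)) = 0 := by
    have h1 : c0 + c1 * (-Complex.I) + c2 * (-Complex.I) ^ 2 = 0 := by
      rw [e0, e1, e2]
      ring
    rw [hc0, hc1, hc2] at h1
    linear_combination (conj B - conj E * Complex.I) * h0 - h1
  rcases mul_eq_zero.mp hprod with h1 | h1
  · have hA : A - C * Complex.I = 0 := by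
      linear_combination h0 - (w0 : ℂ) * h1
    have hf : ∀ k, C + E * (w k : ℂ) = 0 := by
      intro k
      have h2 : (u k : ℂ) + Complex.I ≠ 0 := by
        intro h3
        have h4 := congrArg Complex.im h3
        simp at h4
      apply mul_left_cancel₀ h2
      linear_combination h k - hA - (w k : ℂ) * h1
    have hE : E = 0 := by
      apply mul_left_cancel₀ hw01
      linear_combination hf 0 - hf 1
    have hC : C = 0 := by
      have h2 := hf 0
      rw [hE] at h2
      linear_combination h2
    rw [hE] at h1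
    rw [hC] at hA
    exact ⟨by linear_combination hA, by linear_combination h1, hC, hE⟩
  · have h2 := congrArg conj h1
    simp only [map_add, map_sub, map_mul, Complex.conj_ofReal, Complex.conj_conj, Complex.conj_I,
      map_zero] at h2
    have hAB : A + (w0 : ℂ) * B = 0 := by
      have h3 : (2 : ℂ) ≠ 0 := two_ne_zero
      apply mul_left_cancel₀ h3
      linear_combination h2 + h0
    have hCE : C + (w0 : ℂ) * E = 0 := by
      have h3 : (2 : ℂ) * Complex.I ≠ 0 := mul_ne_zero two_ne_zero hI
      apply mul_left_cancel₀ h3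
      linear_combination h2 - h0
    have hf : ∀ k, B + E * (u k : ℂ) = 0 := by
      intro k
      have h3 : (w k : ℂ) - w0 ≠ 0 := by
        exact_mod_cast sub_ne_zero.mpr (hw0 k)
      apply mul_left_cancel₀ h3
      linear_combination h k - hAB - (u k : ℂ) * hCE
    have hE : E = 0 := by
      apply mul_left_cancel₀ hu01
      linear_combination hf 0 - hf 1
    have hB : B = 0 := by
      have h3 := hf 0
      rw [hE] at h3
      linear_combination h3
    rw [hB] at hAB
    rw [hE] at hCE
    exact ⟨by linear_combination hAB, hB, by linear_combination hCE, hE⟩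

end Pool.Agent.QC
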