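import Mathlib
import Pool.Agent.QC.Tau
import Pool.Agent.QC.LAf
import Pool.Agent.QC.LAg

/-!
Module QC-LA (project QC, `MP_480816_co`).  Uses the statements of `LAf`, `LAg`.

PLAN.  `m = 4`: `subst`, `la_four`.  `m ≥ 5`: let `z = 0 : Fin m` and `k = σ⁻¹ z`, `k ≠ z`.  The set
`univ.erase z |>.erase k` has `m - 2 ≥ 3` elements, so there are three different indices
`i₁, i₂, i₃` outside `{z, k}` (`Finset.exists_subset_card_eq` / `Finset.card_eq_three`, or
`Finset.two_lt_card`).  For these `i`, `tau i = (i : ℝ) - 1` and `tau (σ i) = (σ i : ℝ) - 1` are real, the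
three `u` are different and the three `w` are different; for `i = z` we have `conj (tau z) = -I`, and
`w0 = tau (σ z) = (σ z : ℝ) - 1` is real (`σ z ≠ z`) and different from the three `w`.  `la_core`.
-/

set_option autoImplicit false

open ComplexConjugate

namespace Pool.Agent.QC

theorem tau_inj {m : ℕ} (i j : Fin m) (h : (tau i : ℂ) = tau j) : i = j := by
  unfold tau at h
  by_cases hi : (i : ℕ) = 0
  · by_cases hj : (j : ℕ) = 0
    · exact Fin.ext (hi.trans hj.symm)
    · rw [if_pos hi, if_neg hj] at h
      have := congrArg Complex.im h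
      simp at this
  · by_cases hj : (j : ℕ) = 0
    · rw [if_neg hi, if_pos hj] at h
      have := congrArg Complex.im h
      simp at this
    · rw [if_neg hi, if_neg hj] at h
      have h2 : ((i : ℕ) : ℂ) = ((j : ℕ) : ℂ) := by linear_combination h
      exact Fin.ext (by exact_mod_cast h2)

private theorem tau_real {m : ℕ} (i : Fin m) (hi : (i : ℕ) ≠ 0) :
    (tau i : ℂ) = (((i : ℕ) : ℝ) - 1 : ℝ) := by
  unfold tau
  rw [if_neg hi]
  push_cast
  ring

theorem la {m : ℕ} (hm : 4 ≤ m) (σ : Equiv.Perm (Fin m)) (hσ : ∀ i, σ i ≠ i) (A B C E : ℂ)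
    (h : ∀ i, A + B * tau (σ i) + C * conj (tau i) + E * (conj (tau i) * tau (σ i)) = 0) :
    A = 0 ∧ B = 0 ∧ C = 0 ∧ E = 0 := by
  rcases Nat.eq_or_lt_of_le hm with h4 | h5
  · subst h4
    exact la_four σ hσ A B C E h
  · set z : Fin m := ⟨0, by omega⟩ with hz
    set k : Fin m := σ.symm z with hk
    have hσk : σ k = z := by rw [hk, Equiv.apply_symm_apply]
    have hkz : k ≠ z := by
      intro e
      have := hσ k
      rw [hσk] at this
      exact this e.symm
    have hcard : 3 ≤ ((Finset.univ.erase z).erase k).card := by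
      rw [Finset.card_erase_of_mem (Finset.mem_erase.mpr ⟨hkz, Finset.mem_univ _⟩),
        Finset.card_erase_of_mem (Finset.mem_univ _), Finset.card_univ, Fintype.card_fin]
      omega
    obtain ⟨t, ht, ht3⟩ := Finset.exists_subset_card_eq hcard
    let e : Fin 3 ≃ t := (Fintype.equivFinOfCardEq (by rw [Fintype.card_coe]; exact ht3)).symm
    set g : Fin 3 → Fin m := fun a => (e a).1 with hg
    have hginj : Function.Injective g := fun a b hab => e.injective (Subtype.ext hab)
    have hgt : ∀ a, g a ≠ z ∧ g a ≠ k := by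
      intro a
      have h1 := ht (e a).2
      rw [Finset.mem_erase, Finset.mem_erase] at h1
      exact ⟨h1.2.1, h1.1⟩
    have hg0 : ∀ a, ((g a : Fin m) : ℕ) ≠ 0 := fun a e0 => (hgt a).1 (Fin.ext e0)
    have hs0 : ∀ a, ((σ (g a) : Fin m) : ℕ) ≠ 0 := by
      intro a e0
      apply (hgt a).2
      apply σ.injective
      rw [hσk]
      exact Fin.ext e0
    have hz0 : ((σ z : Fin m) : ℕ) ≠ 0 := fun e0 => hσ z (Fin.ext e0)
    refine la_core (fun a => ((g a : ℕ) : ℝ) - 1) (fun a => ((σ (g a) : ℕ) : ℝ) - 1) ?_ ?_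
      (((σ z : ℕ) : ℝ) - 1) ?_ A B C E ?_ ?_
    · intro a b hab
      have h1 : ((g a : ℕ) : ℝ) = ((g b : ℕ) : ℝ) := by
        have := hab
        simp only [sub_left_inj] at this
        exact this
      exact hginj (Fin.ext (by exact_mod_cast h1))
    · intro a b hab
      have h1 : ((σ (g a) : ℕ) : ℝ) = ((σ (g b) : ℕ) : ℝ) := by
        have := hab
        simp only [sub_left_inj] at this
        exact this
      exact hginj (σ.injective (Fin.ext (by exact_mod_cast h1)))
    · intro a hab
      have h1 : ((σ (g a) : ℕ) : ℝ) = ((σ z : ℕ) : ℝ) := by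
        simp only [sub_left_inj] at hab
        exact hab
      exact (hgt a).1 (σ.injective (Fin.ext (by exact_mod_cast h1)))
    · intro a
      have h1 := h (g a)
      rw [tau_real _ (hg0 a), tau_real _ (hs0 a), Complex.conj_ofReal] at h1
      exact h1
    · have h1 := h z
      rw [tau_real _ hz0] at h1
      have h2 : conj (tau z : ℂ) = -Complex.I := by
        unfold tau
        rw [if_pos (by rw [hz])]
        exact Complex.conj_I
      rw [h2] at h1
      exact h1

end Pool.Agent.QC
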