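import Mathlib
import Pool.Agent.QC.Pt

/-!
Module QC-Pig (project QC, `MP_480816_co`).  Needs only the definitions of `Pt.lean`.

PLAN.  Put `N = 2 * D * q ^ 2`.  For every `p : Pt D q`: `0 ≤ n1 p, n2 p, n3 p ≤ N` (each summand is
between `0` and `2 * q ^ 2`) and `0 ≤ n4 p + D * q ^ 2 ≤ N`.  So
`f p = (n1 p, n2 p, n3 p, n4 p + D q^2)` maps `univ` into `I ×ˢ I ×ˢ I ×ˢ I`, `I = Finset.Icc 0 (N : ℤ)`, a
set of cardinality `(N + 1) ^ 4` (`Int.card_Icc`), and `card univ = (q^4)^D = q ^ (4 * D)`.  Pigeonhole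
(`Finset.exists_lt_card_fiber_of_mul_lt_card_of_maps_to`, or: if all fibres are smaller, sum the
cardinalities of the fibres, `Finset.card_eq_sum_card_fiberwise`): some fibre `T` has
`q ^ (4 * D) ≤ (N + 1) ^ 4 * T.card`.
-/

set_option autoImplicit false

namespace Pool.Agent.QC

private theorem sum_bd (D : ℕ) (f : Fin D → ℤ) (c : ℤ) (h : ∀ k, 0 ≤ f k ∧ f k ≤ c) :
    0 ≤ ∑ k, f k ∧ ∑ k, f k ≤ D * c := by
  refine ⟨Finset.sum_nonneg (fun k _ => (h k).1), ?_⟩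
  calc ∑ k, f k ≤ ∑ _k : Fin D, c := Finset.sum_le_sum (fun k _ => (h k).2)
    _ = D * c := by simp

private theorem mul_bd (q a b : ℕ) (ha : a < q) (hb : b < q) :
    0 ≤ (a : ℤ) * (b : ℤ) ∧ (a : ℤ) * (b : ℤ) ≤ (q : ℤ) ^ 2 := by
  have ha' : (a : ℤ) ≤ q := by exact_mod_cast ha.le
  have hb' : (b : ℤ) ≤ q := by exact_mod_cast hb.le
  refine ⟨by positivity, ?_⟩
  rw [sq]
  exact mul_le_mul ha' hb' (by positivity) (by positivity)

private noncomputable def key {D q : ℕ} (p : Pt D q) : (ℤ × ℤ) × (ℤ × ℤ) :=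
  ((n1 p, n2 p), (n3 p, n4 p + D * (q : ℤ) ^ 2))

theorem pig (D q : ℕ) : ∃ T : Finset (Pt D q),
    (∀ p ∈ T, ∀ p' ∈ T, n1 p = n1 p' ∧ n2 p = n2 p' ∧ n3 p = n3 p' ∧ n4 p = n4 p') ∧
    q ^ (4 * D) ≤ (2 * D * q ^ 2 + 1) ^ 4 * T.card := by
  classical
  set N : ℕ := 2 * D * q ^ 2 with hN
  set I : Finset ℤ := Finset.Icc 0 (N : ℤ) with hI
  have hIcard : I.card = N + 1 := by
    rw [hI, Int.card_Icc]
    simp
  set K : Finset ((ℤ × ℤ) × (ℤ × ℤ)) := (I ×ˢ I) ×ˢ (I ×ˢ I) with hK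
  have hKcard : K.card = (N + 1) ^ 4 := by
    rw [hK, Finset.card_product, Finset.card_product, hIcard]
    ring
  have hNZ : (N : ℤ) = D * (2 * (q : ℤ) ^ 2) := by
    rw [hN]; push_cast; ring
  have hmaps : ∀ p : Pt D q, key p ∈ K := by
    intro p
    have ha := fun k => ((p k).1.1).2
    have hb := fun k => ((p k).1.2).2
    have hc := fun k => ((p k).2.1).2
    have hd := fun k => ((p k).2.2).2
    have s1 := sum_bd D (fun k => ((((p k).1.1 : ℕ) : ℤ) ^ 2 + (((p k).1.2 : ℕ) : ℤ) ^ 2))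
      (2 * (q : ℤ) ^ 2) (fun k => by
        have h1 := mul_bd q _ _ (ha k) (ha k)
        have h2 := mul_bd q _ _ (hb k) (hb k)
        constructor <;> nlinarith)
    have s2 := sum_bd D (fun k => ((((p k).2.1 : ℕ) : ℤ) ^ 2 + (((p k).2.2 : ℕ) : ℤ) ^ 2))
      (2 * (q : ℤ) ^ 2) (fun k => by
        have h1 := mul_bd q _ _ (hc k) (hc k)
        have h2 := mul_bd q _ _ (hd k) (hd k)
        constructor <;> nlinarith)
    have s3 := sum_bd D (fun k => ((((p k).1.1 : ℕ) : ℤ) * (((p k).2.1 : ℕ) : ℤ)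
        + (((p k).1.2 : ℕ) : ℤ) * (((p k).2.2 : ℕ) : ℤ)))
      (2 * (q : ℤ) ^ 2) (fun k => by
        have h1 := mul_bd q _ _ (ha k) (hc k)
        have h2 := mul_bd q _ _ (hb k) (hd k)
        constructor <;> linarith [h1.1, h1.2, h2.1, h2.2])
    have s4 := sum_bd D (fun k => ((((p k).1.1 : ℕ) : ℤ) * (((p k).2.2 : ℕ) : ℤ)
        - (((p k).1.2 : ℕ) : ℤ) * (((p k).2.1 : ℕ) : ℤ)) + (q : ℤ) ^ 2)
      (2 * (q : ℤ) ^ 2) (fun k => by
        have h1 := mul_bd q _ _ (ha k) (hd k)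
        have h2 := mul_bd q _ _ (hb k) (hc k)
        constructor <;> linarith [h1.1, h1.2, h2.1, h2.2])
    have s4' : ∑ k, (((((p k).1.1 : ℕ) : ℤ) * (((p k).2.2 : ℕ) : ℤ)
        - (((p k).1.2 : ℕ) : ℤ) * (((p k).2.1 : ℕ) : ℤ)) + (q : ℤ) ^ 2) = n4 p + D * (q : ℤ) ^ 2 := by
      rw [Finset.sum_add_distrib]
      simp [n4]
    rw [s4'] at s4
    rw [← hNZ] at s1 s2 s3 s4
    rw [hK, Finset.mem_product, Finset.mem_product, Finset.mem_product, hI]
    exact ⟨⟨Finset.mem_Icc.mpr s1, Finset.mem_Icc.mpr s2⟩, ⟨Finset.mem_Icc.mpr s3,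
      Finset.mem_Icc.mpr s4⟩⟩
  have huniv : (Finset.univ : Finset (Pt D q)).card = q ^ (4 * D) := by
    rw [Finset.card_univ]
    simp only [Fintype.card_pi, Fintype.card_prod, Fintype.card_fin, Finset.prod_const,
      Finset.card_univ]
    rw [pow_mul]
    congr 1
    ring
  by_contra hcon
  push Not at hcon
  have hlt : ∀ b ∈ K, (N + 1) ^ 4 * ((Finset.univ : Finset (Pt D q)).filter
      (fun p => key p = b)).card < q ^ (4 * D) := by
    intro b _
    refine hcon _ ?_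
    intro p hp p' hp'
    have h1 := (Finset.mem_filter.mp hp).2
    have h2 := (Finset.mem_filter.mp hp').2
    have h3 := h1.trans h2.symm
    simp only [key, Prod.mk.injEq] at h3
    exact ⟨h3.1.1, h3.1.2, h3.2.1, by linarith [h3.2.2]⟩
  have hsum : (Finset.univ : Finset (Pt D q)).card
      = ∑ b ∈ K, ((Finset.univ : Finset (Pt D q)).filter (fun p => key p = b)).card :=
    Finset.card_eq_sum_card_fiberwise (fun p _ => hmaps p)
  have hKne : K.Nonempty := by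
    rw [← Finset.card_pos, hKcard]
    positivity
  have h5 : (N + 1) ^ 4 * (Finset.univ : Finset (Pt D q)).card < K.card * q ^ (4 * D) := by
    rw [hsum, Finset.mul_sum, ← smul_eq_mul (a := K.card), ← Finset.sum_const]
    exact Finset.sum_lt_sum_of_nonempty hKne hlt
  rw [hKcard, huniv] at h5
  exact lt_irrefl _ h5

end Pool.Agent.QC
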