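import Mathlib
import Pool.Agent.QC.Cnt
import Pool.Agent.QC.Ker
import Pool.Agent.QC.LA
import Pool.Agent.QC.GeoA
import Pool.Agent.QC.GeoB
import Pool.Agent.QC.Pig
import Pool.Agent.QC.Brd

/-!
Module QC-Mid (project QC, `MP_480816_co`).  Uses the statements of all the earlier modules.

PLAN.  `T` from `pig D q`, `X = {p // p ∈ T}`, `E = Fin D → Fin (m*q) × Fin (m*q)` (card `(m*q)^(2*D)`),
`ℓ j p k = (⟨(lnN j p k).1, _⟩, ⟨(lnN j p k).2, _⟩)` with `lnN_lt`.  `ℓ j p = ℓ j p'` iff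
`xv p + tau j • sv p = xv p' + tau j • sv p'` (`lnN_iff`).  `Geom ℓ`: `one` is `geo_one` (with `tau_inj`,
`xs_inj`), `tri` is `geo_tri` (with `same_of`), `theta`: if the lines of `x`, `y` are matched by `σ` then
`σ i ≠ i` for all `i` (otherwise `ℓ i x = ℓ i p = ℓ i y`), the equations `geo_eq` for
`a = tau i`, `b = tau (σ i)` and `la` give `⟪x, y - x⟫ = 0`, `⟪s, t - s⟫ = 0`, so `x = y` by `geo_end`, against
`ℓ i x ≠ ℓ i y`.  Then `exists_code` and `Fintype.card_coe`.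
-/

set_option autoImplicit false

namespace Pool.Agent.QC

/-- the line map with values in a finite type -/
private noncomputable def lnF {m : ℕ} (hm : 2 ≤ m) {D q : ℕ} (T : Finset (Pt D q)) (j : Fin m)
    (p : {p // p ∈ T}) : Fin D → Fin (m * q) × Fin (m * q) :=
  fun k => (⟨(lnN (j : ℕ) p.1 k).1, (lnN_lt hm (j : ℕ) j.2 p.1 k).1⟩,
    ⟨(lnN (j : ℕ) p.1 k).2, (lnN_lt hm (j : ℕ) j.2 p.1 k).2⟩)

private theorem lnF_iff {m : ℕ} (hm : 2 ≤ m) {D q : ℕ} (T : Finset (Pt D q)) (j : Fin m)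
    (p p' : {p // p ∈ T}) : lnF hm T j p = lnF hm T j p' ↔
      xv p.1 + (tau j : ℂ) • sv p.1 = xv p'.1 + (tau j : ℂ) • sv p'.1 := by
  rw [← lnN_iff j p.1 p'.1]
  constructor
  · intro h k
    have hk := congrFun h k
    simp only [lnF, Prod.mk.injEq, Fin.mk.injEq] at hk
    exact Prod.ext hk.1 hk.2
  · intro h
    funext k
    have hk := h k
    simp only [lnF, Prod.mk.injEq, Fin.mk.injEq]
    exact ⟨congrArg Prod.fst hk, congrArg Prod.snd hk⟩

theorem mid {m : ℕ} (hm : 4 ≤ m) (D q : ℕ) :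
    ∃ S : Finset (EuclideanSpace ℝ (Fin (m * (m * q) ^ (2 * D)))),
      q ^ (4 * D) ≤ (2 * D * q ^ 2 + 1) ^ 4 * S.card ∧ (∀ x ∈ S, ‖x‖ = 1) ∧
      (∀ x ∈ S, ∀ y ∈ S, x ≠ y → (inner ℝ x y < 0 ∨ inner ℝ x y = 1 / m)) := by
  obtain ⟨T, hT1, hT2⟩ := pig D q
  have hm2 : 2 ≤ m := by omega
  have hsame : ∀ p p' : {p // p ∈ T}, Same (xv p.1) (sv p.1) (xv p'.1) (sv p'.1) :=
    fun p p' => same_of p.1 p'.1 (hT1 p.1 p.2 p'.1 p'.2)
  have hgeom : Geom (lnF hm2 T) := by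
    constructor
    · intro x y i j hij h1 h2
      rw [lnF_iff] at h1 h2
      obtain ⟨e1, e2⟩ := geo_one (tau i) (tau j) (fun e => hij (tau_inj i j e)) _ _ _ _ h1 h2
      exact Subtype.ext (xs_inj _ _ e1 e2)
    · intro x y z i j k hij hjk hki h1 h2 h3
      rw [lnF_iff] at h1 h2 h3
      obtain ⟨e1, e2⟩ := geo_tri (tau i) (tau j) (tau k) (fun e => hij (tau_inj i j e))
        (fun e => hjk (tau_inj j k e)) (fun e => hki (tau_inj k i e)) _ _ _ _ _ _
        (hsame x y) (hsame x z) h1 h2 h3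
      exact Subtype.ext (xs_inj _ _ e1 e2)
    · intro x y hxy σ hσ
      have hne : ∀ i, σ i ≠ i := by
        intro i e
        obtain ⟨p, hp1, hp2⟩ := hσ i
        rw [e] at hp2
        exact hxy i (hp1.symm.trans hp2)
      have heq : ∀ i, inner ℂ (xv x.1) (xv y.1 - xv x.1)
          + inner ℂ (xv x.1) (sv y.1 - sv x.1) * tau (σ i)
          + inner ℂ (sv x.1) (xv y.1 - xv x.1) * (starRingEnd ℂ) (tau i)
          + inner ℂ (sv x.1) (sv y.1 - sv x.1) * ((starRingEnd ℂ) (tau i) * tau (σ i)) = 0 := by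
        intro i
        obtain ⟨p, hp1, hp2⟩ := hσ i
        rw [lnF_iff] at hp1 hp2
        exact geo_eq (tau i) (tau (σ i)) _ _ _ _ _ _ (hsame x p) hp1 hp2
      obtain ⟨hA, _, _, hE⟩ := la hm σ hne _ _ _ _ heq
      obtain ⟨e1, e2⟩ := geo_end _ _ _ _ (hsame x y) hA hE
      have : x = y := Subtype.ext (xs_inj _ _ e1 e2)
      have hi : 0 < m := by omega
      exact hxy ⟨0, hi⟩ (by rw [this])
  have hcode := exists_code hm2 (lnF hm2 T) hgeom
  have hcard : m * Fintype.card (Fin D → Fin (m * q) × Fin (m * q)) = m * (m * q) ^ (2 * D) := by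
    rw [Fintype.card_fun, Fintype.card_prod, Fintype.card_fin, Fintype.card_fin, pow_mul, sq]
  rw [hcard] at hcode
  obtain ⟨S, hS1, hS2, hS3⟩ := hcode
  refine ⟨S, ?_, hS2, hS3⟩
  rw [hS1, Fintype.card_coe]
  exact hT2

end Pool.Agent.QC
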