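import Mathlib

/-!
Module QC-Par (project QC, `MP_480816_co`).  Mathlib only: choice of the parameters `D` and `q`.

PLAN.  Let `L = log d` (natural logarithm), `d0` large depending on `m`, `d ≥ d0`; put
`D = ⌈√L⌉₊` (so `1 ≤ D`, `√L ≤ D ≤ √L + 1 ≤ 2 √L`) and let `q` be the largest natural number with
`m * (m * q) ^ (2 * D) ≤ d` (`Nat.findGreatest`; `q ≤ d`); so `d < m * (m * (q + 1)) ^ (2 * D)`.
If `q = 0` then `d < m ^ (2 D + 1)`, `L < (2 D + 1) log m ≤ (4 √L + 1) log m`, impossible for `L` large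
(`L ≥ 36 (log m)^2 + 1`, `√L > 5 log m`).  So `q ≥ 1`, `q + 1 ≤ 2 q`, and
`d ≤ m * (2 m q)^(2 D)`, `d ^ 2 ≤ m ^ 2 * (2 m) ^ (4 D) * q ^ (4 D)`.
Also `(m q)^(2 D) ≤ d` gives `2 D log q ≤ L`, `log q ≤ L / (2 D) ≤ √L / 2`, so
`2 D q ^ 2 + 1 ≤ 3 D q ^ 2 ≤ exp (log (3 D) + √L) ≤ exp (3 D + √L)`; the factor
`m ^ 2 * (2 m) ^ (4 D) * (2 D q^2 + 1)^4 ≤ exp (2 log m + 4 D log (2 m) + 12 D + 4 √L) ≤ exp (C √L)` for
`C = 2 log m + 8 log (2 m) + 28` (`D ≤ 2 √L`, `1 ≤ √L`).  So
`d ^ 2 * exp (- C √L) * (2 D q^2 + 1)^4 ≤ q ^ (4 D)`.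
For `d < d0`: the left alternative, `d ^ 2 * exp (- C √(log d)) ≤ 1` if `C ≥ 2 √(log d0)`
(`2 log d ≤ C √(log d)` when `√(log d) ≤ C / 2`).
-/

set_option autoImplicit false

namespace Pool.Agent.QC

theorem params (m : ℕ) (hm : 2 ≤ m) : ∃ C : ℝ, ∀ d : ℕ, 1 ≤ d →
    (d : ℝ) ^ 2 * Real.exp (-C * √(Real.log d)) ≤ 1 ∨
    ∃ D q : ℕ, m * (m * q) ^ (2 * D) ≤ d ∧
      (d : ℝ) ^ 2 * Real.exp (-C * √(Real.log d)) * (2 * (D : ℝ) * (q : ℝ) ^ 2 + 1) ^ 4
        ≤ (q : ℝ) ^ (4 * D) := by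
  set lm : ℝ := Real.log m with hlm
  have hm2 : (2 : ℝ) ≤ m := by exact_mod_cast hm
  have hlm0 : 0 < lm := Real.log_pos (by linarith)
  set l2 : ℝ := Real.log (2 * m) with hl2
  have hl20 : 0 < l2 := Real.log_pos (by linarith)
  set L0 : ℝ := 36 * lm ^ 2 + 1 with hL0
  have hL0' : 1 ≤ L0 := by nlinarith [sq_nonneg lm]
  refine ⟨max (2 * lm + 8 * l2 + 28) (2 * √L0), fun d hd => ?_⟩
  set C : ℝ := max (2 * lm + 8 * l2 + 28) (2 * √L0) with hC
  have hd1 : (1 : ℝ) ≤ d := by exact_mod_cast hd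
  have hd0 : (0 : ℝ) < d := by linarith
  set L : ℝ := Real.log d with hL
  have hLn : 0 ≤ L := Real.log_nonneg hd1
  set t : ℝ := √L with ht
  have ht0 : 0 ≤ t := Real.sqrt_nonneg _
  have htt : t * t = L := Real.mul_self_sqrt hLn
  have hdd : (d : ℝ) ^ 2 = Real.exp (2 * L) := by
    rw [two_mul, Real.exp_add, hL, Real.exp_log hd0, pow_two]
  rcases lt_or_ge L L0 with hlt | hge
  · left
    rw [hdd, ← Real.exp_add]
    rw [Real.exp_le_one_iff]
    have h1 : t ≤ √L0 := Real.sqrt_le_sqrt hlt.le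
    have h2 : 2 * √L0 ≤ C := le_max_right _ _
    nlinarith
  · right
    have ht1 : 1 ≤ t := by
      rw [ht, Real.one_le_sqrt]
      linarith
    have ht6 : 6 * lm ≤ t := by
      rw [ht]
      apply Real.le_sqrt_of_sq_le
      nlinarith
    set D : ℕ := ⌈t⌉₊ with hD
    have hDt : t ≤ D := Nat.le_ceil t
    have hDt2 : (D : ℝ) < t + 1 := Nat.ceil_lt_add_one ht0
    have hD2 : (D : ℝ) ≤ 2 * t := by linarith
    have hD1 : (1 : ℝ) ≤ D := ht1.trans hDt
    have hDpos : 0 < D := by exact_mod_cast (lt_of_lt_of_le one_pos hD1)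
    set P : ℕ → Prop := fun q => m * (m * q) ^ (2 * D) ≤ d with hP
    set q : ℕ := Nat.findGreatest P d with hq
    have hP0 : P 0 := by
      show m * (m * 0) ^ (2 * D) ≤ d
      rw [mul_zero, zero_pow (by omega), mul_zero]
      exact Nat.zero_le _
    have hPq : P q := Nat.findGreatest_spec (P := P) (Nat.zero_le d) hP0
    have hPq1 : d < m * (m * (q + 1)) ^ (2 * D) := by
      rcases le_or_gt (q + 1) d with h1 | h1
      · exact not_le.mp (Nat.findGreatest_is_greatest (P := P) (Nat.lt_succ_self q) h1)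
      · have h2 : q + 1 ≤ (m * (q + 1)) ^ (2 * D) :=
          (Nat.le_mul_of_pos_left _ (by omega)).trans (Nat.le_self_pow (by omega) _)
        exact lt_of_lt_of_le h1 (h2.trans (Nat.le_mul_of_pos_left _ (by omega)))
    have hPqR : (m : ℝ) * (m * q) ^ (2 * D) ≤ d := by exact_mod_cast hPq
    have hPq1R : (d : ℝ) < m * (m * (q + 1)) ^ (2 * D) := by exact_mod_cast hPq1
    have hq1 : 1 ≤ q := by
      by_contra hcon
      have hq0 : q = 0 := by omega
      rw [hq0] at hPq1R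
      have h1 : (m : ℝ) * (m * ((0 : ℕ) + 1)) ^ (2 * D) = (m : ℝ) ^ (2 * D + 1) := by
        rw [pow_succ]
        simp
        ring
      rw [h1] at hPq1R
      have h2 : L < (2 * D + 1) * lm := by
        have h3 := Real.log_lt_log hd0 hPq1R
        rw [Real.log_pow] at h3
        push_cast at h3
        exact h3
      nlinarith
    have hqR : (1 : ℝ) ≤ q := by exact_mod_cast hq1
    have hq0 : (0 : ℝ) < q := by linarith
    refine ⟨D, q, hPq, ?_⟩
    -- bound for log q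
    have hlq : Real.log q ≤ t / 2 := by
      have h1 : (q : ℝ) ^ (2 * D) ≤ d := by
        refine le_trans ?_ hPqR
        have h2 : (q : ℝ) ^ (2 * D) ≤ ((m : ℝ) * q) ^ (2 * D) :=
          pow_le_pow_left₀ hq0.le (by nlinarith) _
        have h3 : ((m : ℝ) * q) ^ (2 * D) ≤ m * (m * q) ^ (2 * D) :=
          le_mul_of_one_le_left (by positivity) (by linarith)
        exact h2.trans h3
      have h2 := Real.log_le_log (by positivity) h1
      rw [Real.log_pow] at h2
      push_cast at h2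
      have h3 : 0 ≤ Real.log q := Real.log_nonneg hqR
      have h4 : 2 * t * Real.log q ≤ t * t := by
        rw [htt]
        refine le_trans ?_ h2
        exact mul_le_mul_of_nonneg_right (by linarith) h3
      have h5 : 0 < t := by linarith
      nlinarith
    have hq2 : (q : ℝ) ^ 2 ≤ Real.exp t := by
      have h1 : (q : ℝ) ≤ Real.exp (t / 2) := by
        rw [← Real.exp_log hq0]
        exact Real.exp_le_exp.mpr hlq
      calc (q : ℝ) ^ 2 ≤ Real.exp (t / 2) ^ 2 := pow_le_pow_left₀ hq0.le h1 2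
        _ = Real.exp t := by
          rw [← Real.exp_nat_mul]
          congr 1
          push_cast
          ring
    have hfac : (2 * (D : ℝ) * (q : ℝ) ^ 2 + 1) ^ 4 ≤ Real.exp (12 * D + 4 * t) := by
      have h1 : 2 * (D : ℝ) * (q : ℝ) ^ 2 + 1 ≤ Real.exp (3 * D + t) := by
        have h2 : (1 : ℝ) ≤ D * (q : ℝ) ^ 2 := by nlinarith [sq_nonneg ((q : ℝ) - 1)]
        have h3 : 3 * (D : ℝ) ≤ Real.exp (3 * D) := by
          linarith [Real.add_one_le_exp (3 * (D : ℝ))]
        rw [Real.exp_add]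
        calc 2 * (D : ℝ) * (q : ℝ) ^ 2 + 1 ≤ 3 * D * (q : ℝ) ^ 2 := by linarith
          _ ≤ Real.exp (3 * D) * Real.exp t :=
            mul_le_mul h3 hq2 (by positivity) (Real.exp_pos _).le
      calc (2 * (D : ℝ) * (q : ℝ) ^ 2 + 1) ^ 4 ≤ Real.exp (3 * D + t) ^ 4 :=
            pow_le_pow_left₀ (by positivity) h1 4
        _ = Real.exp (12 * D + 4 * t) := by
          rw [← Real.exp_nat_mul]
          congr 1
          push_cast
          ring
    have hdsq : (d : ℝ) ^ 2 ≤ Real.exp (2 * lm + 4 * D * l2) * (q : ℝ) ^ (4 * D) := by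
      have h1 : (d : ℝ) ≤ m * (2 * m * q) ^ (2 * D) := by
        refine hPq1R.le.trans ?_
        refine mul_le_mul_of_nonneg_left ?_ (by linarith)
        refine pow_le_pow_left₀ (by positivity) ?_ _
        nlinarith
      have h2 : Real.exp (2 * lm + 4 * D * l2) = (m : ℝ) ^ 2 * (2 * m) ^ (4 * D) := by
        rw [Real.exp_add]
        congr 1
        · have h3 : 2 * Real.log m = Real.log ((m : ℝ) ^ 2) := by
            rw [Real.log_pow]
            push_cast
            ring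
          rw [hlm, h3, Real.exp_log (by positivity)]
        · have h3 : 4 * (D : ℝ) * l2 = Real.log ((2 * m) ^ (4 * D)) := by
            rw [Real.log_pow, hl2]
            push_cast
            ring
          rw [h3, Real.exp_log (by positivity)]
      rw [h2]
      calc (d : ℝ) ^ 2 ≤ (m * (2 * m * q) ^ (2 * D)) ^ 2 := pow_le_pow_left₀ hd0.le h1 2
        _ = (m : ℝ) ^ 2 * (2 * m) ^ (4 * D) * (q : ℝ) ^ (4 * D) := by
          have h3 : 2 * D * 2 = 4 * D := by ring
          rw [mul_pow, ← pow_mul, mul_assoc ((m : ℝ) ^ 2), ← mul_pow, h3]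
    have hexp : Real.exp (2 * lm + 4 * D * l2) * Real.exp (-C * t) * Real.exp (12 * D + 4 * t) ≤ 1 := by
      rw [← Real.exp_add, ← Real.exp_add, Real.exp_le_one_iff]
      have h1 : 2 * lm + 8 * l2 + 28 ≤ C := le_max_left _ _
      have h2 : 2 * lm ≤ 2 * lm * t := by nlinarith
      have h3 : 4 * D * l2 ≤ 8 * l2 * t := by nlinarith
      nlinarith
    calc (d : ℝ) ^ 2 * Real.exp (-C * t) * (2 * (D : ℝ) * (q : ℝ) ^ 2 + 1) ^ 4
        ≤ (Real.exp (2 * lm + 4 * D * l2) * (q : ℝ) ^ (4 * D)) * Real.exp (-C * t) *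
          Real.exp (12 * D + 4 * t) := by
          refine mul_le_mul ?_ hfac (by positivity) (by positivity)
          exact mul_le_mul_of_nonneg_right hdsq (Real.exp_pos _).le
      _ = (Real.exp (2 * lm + 4 * D * l2) * Real.exp (-C * t) * Real.exp (12 * D + 4 * t)) *
          (q : ℝ) ^ (4 * D) := by ring
      _ ≤ 1 * (q : ℝ) ^ (4 * D) := mul_le_mul_of_nonneg_right hexp (by positivity)
      _ = (q : ℝ) ^ (4 * D) := one_mul _

end Pool.Agent.QC
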