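import Mathlib
import Pool.Agent.QC.Mid
import Pool.Agent.QC.Par
import Pool.Agent.Helper17.Sph.Lower

/-!
Module QC-Asy (project QC, `MP_480816_co`): the asymptotic lower bound, from the choice of the
parameters, the codes of `Mid` and the embedding into a larger dimension.
-/

set_option autoImplicit false

namespace Pool.Agent.QC

theorem asy {m : ℕ} (hm : 4 ≤ m) : ∃ C : ℝ, ∀ d : ℕ, 1 ≤ d →
    ∃ S : Finset (EuclideanSpace ℝ (Fin d)),
      (d : ℝ) ^ 2 * Real.exp (-C * √(Real.log d)) ≤ S.card ∧ (∀ x ∈ S, ‖x‖ = 1) ∧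
      (∀ x ∈ S, ∀ y ∈ S, x ≠ y → (inner ℝ x y < 0 ∨ inner ℝ x y = 1 / m)) := by
  obtain ⟨C, hC⟩ := params m (by omega)
  refine ⟨C, fun d hd => ?_⟩
  rcases hC d hd with h | ⟨D, q, h1, h2⟩
  · refine ⟨{EuclideanSpace.single (⟨0, hd⟩ : Fin d) (1 : ℝ)}, ?_, ?_, ?_⟩
    · simpa using h
    · intro x hx
      rw [Finset.mem_singleton] at hx
      subst hx
      simp
    · intro x hx y hy hne
      rw [Finset.mem_singleton] at hx hy
      exact absurd (hx.trans hy.symm) hne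
  · obtain ⟨S0, c1, c2, c3⟩ := mid hm D q
    obtain ⟨S, e1, e2, e3⟩ := Pool.Agent.Helper17.Sph.embed h1 (1 / (m : ℝ)) S0 c2 c3
    refine ⟨S, ?_, e2, e3⟩
    have c1' : (q : ℝ) ^ (4 * D) ≤ (2 * (D : ℝ) * (q : ℝ) ^ 2 + 1) ^ 4 * (S0.card : ℝ) := by
      exact_mod_cast c1
    have hpos : (0 : ℝ) < (2 * (D : ℝ) * (q : ℝ) ^ 2 + 1) ^ 4 := by positivity
    rw [e1]
    refine le_of_mul_le_mul_left ?_ hpos
    calc (2 * (D : ℝ) * (q : ℝ) ^ 2 + 1) ^ 4 * ((d : ℝ) ^ 2 * Real.exp (-C * √(Real.log d)))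
        = (d : ℝ) ^ 2 * Real.exp (-C * √(Real.log d)) * (2 * (D : ℝ) * (q : ℝ) ^ 2 + 1) ^ 4 := by
          ring
      _ ≤ (q : ℝ) ^ (4 * D) := h2
      _ ≤ _ := c1'

end Pool.Agent.QC
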